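import Pool.Agent.Zk71.AX.Eq
import Pool.Agent.Zk71.PE.Fin

/-! # Almost every interaction with a thermodynamic gap -/

set_option autoImplicit false
set_option linter.unusedSectionVars false

open scoped BigOperators ComplexConjugate Topology

noncomputable section

namespace Pool.Agent.Zk71.AX

open Pool.Agent.Y738.PE Pool.Agent.N658.TP

theorem herm_hermOf {d q : ℕ} (X : BConf d q → BConf d q → ℝ) (σ τ : BConf d q) :
    hermOf X σ τ = conj (hermOf X τ σ) := by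
  unfold hermOf
  simp only [map_add, map_mul, Complex.conj_ofReal, Complex.conj_I]
  push_cast
  ring

/-- Polynomial bond dimension for one large ground state gives, for generic interactions, one tensor
for everything. -/
theorem gapGen {d R' : ℕ} (hd : 2 ≤ d) (X : BConf d (R' + 1) → BConf d (R' + 1) → ℝ)
    (hX : GenL d (R' + 1) X) (R : Finset (ℤ × ℤ)) (hR : InBox (R' + 1) R)
    (H : Pool.Agent.Zk71.PE.PolyApp
      (Matrix.of (hermOf X) : Pool.Agent.TH235.PP.BoxOp d (R' + 1)) R) :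
    ∃ N : ℕ, ∀ ε : ℝ, 0 < ε → ε ≤ 1 → ∃ (D : ℕ) (A : Tensor d D), (D : ℝ) ≤ (2 / ε) ^ N ∧
      ∀ (L : ℕ) [NeZero L], (2 / ε) ^ N ≤ (L : ℝ) → nrm (pepsX A L) ≠ 0 ∧
        ∀ X' : BConf d (R' + 1) → BConf d (R' + 1) → ℝ, (∀ σ τ, |X' σ τ - X σ τ| ≤ (ε / 2) ^ N) →
        ∀ Ψ : Conf d L → ℂ, TransInv Ψ → Near (hermOf X') L ((ε / 2) ^ N) Ψ →
          Close R Ψ (pepsX A L) ε := by
  obtain ⟨N₁, hN₁⟩ := H
  obtain ⟨C, hC1, hC⟩ := transferL hd X hX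
  obtain ⟨k, hk⟩ := pow_bd (C ^ 2)
  refine ⟨2 * N₁ + k + 2, ?_⟩
  intro ε hε hε1
  have hC0 : 0 < C := by linarith
  have h2 : 2 ≤ 2 / ε := by rw [le_div_iff₀ hε]; linarith
  have h21 : 1 ≤ 2 / ε := by linarith
  have hp2 : ∀ j : ℕ, (2 : ℝ) ^ j ≤ (2 / ε) ^ j := fun j => pow_le_pow_left₀ (by norm_num) h2 j
  have hmono : ∀ i j : ℕ, i ≤ j → (2 / ε) ^ i ≤ (2 / ε) ^ j := fun i j hij =>
    pow_le_pow_right₀ h21 hij
  obtain ⟨L₀, hL₀⟩ := hN₁ (ε / 2) (by linarith) (by linarith)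
  have hle : (2 / (ε / 2)) ^ N₁ ≤ (2 / ε) ^ (2 * N₁) := by
    have e1 : 2 / (ε / 2) = 2 * (2 / ε) := by field_simp
    rw [pow_mul, e1]
    refine pow_le_pow_left₀ (by positivity) ?_ N₁
    nlinarith
  obtain ⟨D, A, hD, hA⟩ := hC ε hε hε1 R hR ((2 / (ε / 2)) ^ N₁) ((2 / (ε / 2)) ^ N₁)
    ⟨L₀, fun L _ hL Ψ hΨ hT => hL₀ L hL Ψ hΨ hT⟩
  have hCε : (C / ε) ^ 2 ≤ (2 / ε) ^ (k + 2) := by
    have e2 : (2 / ε) ^ (k + 2) = (2 / ε) ^ k * 4 / ε ^ 2 := by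
      rw [pow_add]
      ring
    rw [e2, div_pow, div_le_div_iff_of_pos_right (by positivity)]
    have e3 : C ^ 2 ≤ (2 / ε) ^ k := hk.trans (hp2 k)
    nlinarith [sq_nonneg C]
  have hinv : (ε / 2) ^ (2 * N₁ + k + 2) ≤ (ε / C) ^ 2 := by
    have e1 : (ε / 2) ^ (2 * N₁ + k + 2) = ((2 / ε) ^ (2 * N₁ + k + 2))⁻¹ := by
      rw [← inv_pow, inv_div]
    have e2 : (ε / C) ^ 2 = ((C / ε) ^ 2)⁻¹ := by rw [← inv_pow, inv_div]
    rw [e1, e2]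
    exact inv_anti₀ (by positivity) (hCε.trans (hmono _ _ (by omega)))
  have hinv1 : (ε / 2) ^ (2 * N₁ + k + 2) ≤ ε / C := by
    refine hinv.trans ?_
    have e1 : ε / C ≤ 1 := by rw [div_le_one hC0]; linarith
    have e2 : 0 ≤ ε / C := by positivity
    nlinarith
  refine ⟨D, A, (hD.trans hle).trans (hmono _ _ (by omega)), ?_⟩
  intro L _ hL
  obtain ⟨k1, k2⟩ := hA L ((hle.trans (hmono _ _ (by omega))).trans hL)
    ((hCε.trans (hmono _ _ (by omega))).trans hL)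
  exact ⟨k1, fun X' hX' Ψ hT hΨ => k2 X' (fun σ τ => (hX' σ τ).trans hinv1) Ψ hT
    (near_mono hΨ hinv)⟩

theorem gapGen2 {d R' : ℕ} (hd : 2 ≤ d) (X : BConf d (R' + 1) → BConf d (R' + 1) → ℝ)
    (hX : GenL d (R' + 1) X) (R : Finset (ℤ × ℤ)) (hR : InBox (R' + 1) R)
    (H : Pool.Agent.Zk71.PE.PolyApp
      (Matrix.of (hermOf X) : Pool.Agent.TH235.PP.BoxOp d (R' + 1)) R) :
    ∃ N : ℕ, ∀ ε : ℝ, 0 < ε → ε ≤ 1 → ∃ (D : ℕ) (A : Tensor d D), (D : ℝ) ≤ (2 / ε) ^ N ∧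
      ∀ (L : ℕ) [NeZero L], (2 / ε) ^ N ≤ (L : ℝ) → nrm (pepsX A L) ≠ 0 ∧
        (∀ Ψ : Conf d L → ℂ, IsGround (hermOf X) L Ψ → TransInv Ψ → Close R Ψ (pepsX A L) ε) ∧
        ∀ X' : BConf d (R' + 1) → BConf d (R' + 1) → ℝ, (∀ σ τ, |X' σ τ - X σ τ| ≤ (ε / 2) ^ N) →
        ∀ Ψ : Conf d L → ℂ, TransInv Ψ → Near (hermOf X') L ((ε / 2) ^ N) Ψ →
          Close R Ψ (pepsX A L) ε := by
  obtain ⟨N, hN⟩ := gapGen hd X hX R hR H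
  refine ⟨N, fun ε hε hε1 => ?_⟩
  obtain ⟨D, A, hD, hA⟩ := hN ε hε hε1
  refine ⟨D, A, hD, fun L _ hL => ?_⟩
  obtain ⟨k1, k2⟩ := hA L hL
  exact ⟨k1, fun Ψ hΨ hT => k2 X (fun σ τ => by rw [sub_self, abs_zero]; positivity) Ψ hT
    (near_ground hΨ (by positivity)), k2⟩

theorem her_of {d q : ℕ} (X : BConf d q → BConf d q → ℝ) :
    (Matrix.of (hermOf X) : Matrix (BConf d q) (BConf d q) ℂ).IsHermitian := by
  ext σ τ
  rw [Matrix.conjTranspose_apply]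
  exact (herm_hermOf X σ τ).symm

theorem poly_thermo {d R' : ℕ} (hd : 2 ≤ d) (X : BConf d (R' + 1) → BConf d (R' + 1) → ℝ)
    (R : Finset (ℤ × ℤ)) (a c : ℝ) (ha : 0 ≤ a) (hc : 0 < c)
    (H : ∀ β : ℝ, 1 ≤ β → ∃ m₀ : ℕ, ∀ (m : ℕ) [NeZero m], m₀ ≤ m →
      Sp.part (hermOf X) m β ≤ Real.exp (a * Real.exp (-(c * β)) * (m : ℝ) ^ 2)) :
    Pool.Agent.Zk71.PE.PolyApp
      (Matrix.of (hermOf X) : Pool.Agent.TH235.PP.BoxOp d (R' + 1)) R := by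
  obtain ⟨h', hh'⟩ : ∃ h' : Pool.Agent.TH235.PP.BoxOp d (R' + 1), h' = Matrix.of (hermOf X) :=
    ⟨_, rfl⟩
  have hher : h'.IsHermitian := by
    rw [hh']
    exact her_of X
  have hp' : ∀ β : ℝ, 1 ≤ β → ∃ m₀ : ℕ, ∀ (m : ℕ) [NeZero m], m₀ ≤ m →
      FreeLe h' m β (a * Real.exp (-(c * β))) := by
    intro β hβ
    obtain ⟨m₀, hm₀⟩ := H β hβ
    refine ⟨max m₀ (R' + 1), fun m _ hm => ?_⟩
    refine Sp.freeOf' d R' (by omega) h' hher m ((le_max_right _ _).trans hm) β _ ?_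
    rw [hh']
    exact hm₀ m ((le_max_left _ _).trans hm)
  have H2 := Pool.Agent.Zk71.PE.thermo Pool.Agent.Zk71.PE.freeG' freeDown' d R' hd h' hher R a c
    ha hc hp'
  rw [hh'] at H2
  exact H2

theorem poly_few {d R' : ℕ} (hd : 2 ≤ d) (X : BConf d (R' + 1) → BConf d (R' + 1) → ℝ)
    (R : Finset (ℤ × ℤ)) (a c θ : ℝ) (ha : 0 ≤ a) (hc : 0 ≤ c) (hθ : 0 < θ)
    (H : ∃ m₀ : ℕ, ∀ (m : ℕ) [NeZero m], m₀ ≤ m → ∀ M : ℕ,
      (Sp.cnt (hermOf X) m M : ℝ) ≤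
        Real.exp (a * (m : ℝ) ^ (2 - θ)) * (m : ℝ) ^ (c * (M + 1))) :
    Pool.Agent.Zk71.PE.PolyApp
      (Matrix.of (hermOf X) : Pool.Agent.TH235.PP.BoxOp d (R' + 1)) R := by
  obtain ⟨h', hh'⟩ : ∃ h' : Pool.Agent.TH235.PP.BoxOp d (R' + 1), h' = Matrix.of (hermOf X) :=
    ⟨_, rfl⟩
  have hher : h'.IsHermitian := by
    rw [hh']
    exact her_of X
  have H2 := Pool.Agent.Zk71.PE.spectral Pool.Agent.Zk71.PE.freeG' Sp.freeOf' d R' hd h' hher R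
    a c θ ha hc hθ (by rw [hh']; exact H)
  rw [hh'] at H2
  exact H2

end Pool.Agent.Zk71.AX
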