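import Pool.Agent.Zk71.AX.Mar

/-! # Generic interactions: closeness of all states of low energy density, transfer -/

set_option autoImplicit false
set_option linter.unusedSectionVars false

open scoped BigOperators ComplexConjugate Topology

noncomputable section

namespace Pool.Agent.Zk71.AX

open Pool.Agent.Y738.PE

theorem near_mono {d q L : ℕ} [NeZero L] {h : BConf d q → BConf d q → ℂ} {η η' : ℝ}
    {Ψ : Conf d L → ℂ} (H : Near h L η Ψ) (hη : η ≤ η') : Near h L η' Ψ := by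
  refine ⟨H.1, fun φ hφ => (H.2 φ hφ).trans ?_⟩
  refine mul_le_mul_of_nonneg_right ?_ (nrm_nonneg Ψ)
  have := mul_le_mul_of_nonneg_right hη (sq_nonneg (L : ℝ))
  linarith

theorem near_ground {d q L : ℕ} [NeZero L] {h : BConf d q → BConf d q → ℂ} {η : ℝ}
    {Ψ : Conf d L → ℂ} (H : IsGround h L Ψ) (hη : 0 ≤ η) : Near h L η Ψ := by
  refine ⟨by rw [H.1]; exact one_ne_zero, fun φ hφ => ?_⟩
  rw [H.1, mul_one]
  have := mul_nonneg hη (sq_nonneg (L : ℝ))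
  linarith [H.2 φ hφ]

theorem close_symm {d L L' : ℕ} [NeZero L] [NeZero L'] {R : Finset (ℤ × ℤ)} {Ψ : Conf d L → ℂ}
    {Ψ' : Conf d L' → ℂ} {ε : ℝ} (H : Close R Ψ Ψ' ε) : Close R Ψ' Ψ ε := by
  intro u v B hB
  rw [norm_sub_rev]
  exact H v u B hB

/-- All translation invariant vectors of low energy density have almost the same reduced density
matrices, with the optimal order `√η`. -/
def Gen (d q : ℕ) (X : BConf d q → BConf d q → ℝ) : Prop :=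
  ∃ C : ℝ, 0 < C ∧ ∀ η : ℝ, 0 < η → η ≤ 1 → ∀ (L L' : ℕ) [NeZero L] [NeZero L'],
    q ≤ L → q ≤ L' → 1 / η ≤ (L : ℝ) → 1 / η ≤ (L' : ℝ) →
    ∀ (Ψ : Conf d L → ℂ) (Ψ' : Conf d L' → ℂ), TransInv Ψ → TransInv Ψ' →
    Near (hermOf X) L η Ψ → Near (hermOf X) L' η Ψ' → ∀ R, InBox q R →
      Close R Ψ Ψ' (C * Real.sqrt η)

theorem nearClose {d q : ℕ} (hd : 2 ≤ d) (hq : 0 < q) (F : (BConf d q → BConf d q → ℝ) → ℝ)
    (C₀ : ℝ) (hC₀ : 0 ≤ C₀) (hF : ∀ L : ℕ, q ≤ L → ∀ X, |gd L X - F X| ≤ C₀ * (1 + ‖X‖) / L)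
    (X : BConf d q → BConf d q → ℝ) (K : ℝ)
    (hX : ∀ (σ τ : BConf d q) (t : ℝ), 0 ≤ t → t ≤ 1 →
      2 * F X - F (X + t • sg σ τ) - F (X - t • sg σ τ) ≤ K * t ^ 2) : Gen d q X := by
  have hRI := Pool.Agent.Y759.PE.regionIn
  set u : ℝ := C₀ * (1 + ‖X‖) + 1 with hu
  obtain ⟨C, hC, H⟩ := margN hd F C₀ hC₀ hF X K hX u
  refine ⟨C, hC, ?_⟩
  intro η hη hη1 L L' _ _ hqL hqL' hL hL' Ψ Ψ' hT hT' hN hN' R hR
  have hen : ∀ (M : ℕ) [NeZero M], q ≤ M → 1 / η ≤ (M : ℝ) → ∀ Φ : Conf d M → ℂ,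
      Near (hermOf X) M η Φ → en (hermOf X) M (nz Φ) ≤ (F X + u * η) * (M : ℝ) ^ 2 := by
    intro M _ hqM hM Φ hΦ
    have h0 : 0 < nrm Φ := lt_of_le_of_ne (nrm_nonneg _) (Ne.symm hΦ.1)
    have hM0 : (0 : ℝ) < M := lt_of_lt_of_le (by positivity) hM
    have hM2 : (0 : ℝ) < (M : ℝ) ^ 2 := by positivity
    obtain ⟨G, hG, -⟩ := Pool.Agent.Y932.PE.groundExists d q M (by omega) hqM X
    have h1 := hΦ.2 G hG.1
    rw [nz_en _ Φ hΦ.1, inv_mul_le_iff₀ h0]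
    have h2 := hF M hqM X
    rw [gd_eq X G hG] at h2
    have h3 := (abs_le.1 h2).2
    have h4 : C₀ * (1 + ‖X‖) / M ≤ C₀ * (1 + ‖X‖) * η := by
      rw [div_eq_mul_inv]
      refine mul_le_mul_of_nonneg_left ?_ (by have := norm_nonneg X; positivity)
      rw [inv_le_comm₀ hM0 hη, ← one_div]
      exact hM
    have h5 : en (hermOf X) M G / (M : ℝ) ^ 2 ≤ F X + C₀ * (1 + ‖X‖) * η := by linarith
    rw [div_le_iff₀ hM2] at h5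
    have h6 : en (hermOf X) M G + η * (M : ℝ) ^ 2 ≤ (F X + u * η) * (M : ℝ) ^ 2 := by
      rw [hu]
      nlinarith
    calc en (hermOf X) M Φ ≤ (en (hermOf X) M G + η * (M : ℝ) ^ 2) * nrm Φ := h1
      _ ≤ ((F X + u * η) * (M : ℝ) ^ 2) * nrm Φ := mul_le_mul_of_nonneg_right h6 h0.le
      _ = nrm Φ * ((F X + u * η) * (M : ℝ) ^ 2) := mul_comm _ _
  have t1 := transInv_expec (nz Ψ) (nz_nrm Ψ hN.1) (nz_TI Ψ hT) q
  have t2 := transInv_expec (nz Ψ') (nz_nrm Ψ' hN'.1) (nz_TI Ψ' hT') q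
  intro v v' B hB
  obtain ⟨B', hB', hBB⟩ := hRI d q R hR B hB
  rw [hBB L hqL, hBB L' hqL', ← nz_expec Ψ hN.1, ← nz_expec Ψ' hN'.1, t1, t2]
  exact H η hη hη1 L L' hqL hqL' hL hL' (nz Ψ) (nz Ψ') (nz_nrm Ψ hN.1) (nz_nrm Ψ' hN'.1) t1 t2
    (hen L hqL hL Ψ hN) (hen L' hqL' hL' Ψ' hN') B' hB'

/-- Transfer: one tensor for one large ground state serves all states of low energy density. -/
theorem transfer {d q : ℕ} (hd : 2 ≤ d) (hq : 0 < q) (X : BConf d q → BConf d q → ℝ)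
    (hX : Gen d q X) : ∃ C : ℝ, 0 < C ∧ ∀ ε : ℝ, 0 < ε → ε ≤ 1 → ∀ R, InBox q R → ∀ D₀ T : ℝ,
    (∃ L₀ : ℕ, ∀ (L : ℕ) [NeZero L], L₀ ≤ L → ∀ Ψ : Conf d L → ℂ, IsGround (hermOf X) L Ψ →
      TransInv Ψ → ∃ (D : ℕ) (A : Tensor d D), (D : ℝ) ≤ D₀ ∧
        ∀ (L' : ℕ) [NeZero L'], T ≤ (L' : ℝ) →
          nrm (pepsX A L') ≠ 0 ∧ Close R Ψ (pepsX A L') (ε / 2)) →
    ∃ (D : ℕ) (A : Tensor d D), (D : ℝ) ≤ D₀ ∧
      ∀ (L' : ℕ) [NeZero L'], T ≤ (L' : ℝ) → C / ε ^ 2 ≤ (L' : ℝ) →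
        nrm (pepsX A L') ≠ 0 ∧ ∀ Ψ' : Conf d L' → ℂ, TransInv Ψ' →
          Near (hermOf X) L' (ε ^ 2 / C) Ψ' → Close R Ψ' (pepsX A L') ε := by
  obtain ⟨C₁, hC₁, H⟩ := hX
  obtain ⟨C, hCe⟩ : ∃ C : ℝ, C = (2 * C₁) ^ 2 + q + 1 := ⟨_, rfl⟩
  have hq0 : (0 : ℝ) ≤ q := Nat.cast_nonneg q
  have hC1 : 1 ≤ C := by rw [hCe]; nlinarith [sq_nonneg (2 * C₁)]
  have hC0 : 0 < C := by linarith
  refine ⟨C, hC0, ?_⟩
  intro ε hε hε1 R hR D₀ T ⟨L₀, hL₀⟩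
  obtain ⟨η, hηe⟩ : ∃ η : ℝ, η = ε ^ 2 / C := ⟨_, rfl⟩
  have hη : 0 < η := by rw [hηe]; positivity
  have hη1 : η ≤ 1 := by
    rw [hηe, div_le_one hC0]
    nlinarith
  have hηi : 1 / η = C / ε ^ 2 := by rw [hηe, one_div_div]
  have hqC : (q : ℝ) ≤ C / ε ^ 2 := by
    rw [le_div_iff₀ (by positivity)]
    have : ε ^ 2 ≤ 1 := by nlinarith
    have h5 : (q : ℝ) * ε ^ 2 ≤ q * 1 := mul_le_mul_of_nonneg_left this hq0
    have h6 : (q : ℝ) ≤ C := by rw [hCe]; nlinarith [sq_nonneg (2 * C₁)]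
    linarith
  have hsq : C₁ * Real.sqrt η ≤ ε / 2 := by
    have h1 : Real.sqrt η ≤ ε / (2 * C₁) := by
      rw [Real.sqrt_le_left (by positivity), hηe, div_pow]
      refine div_le_div_of_nonneg_left (by positivity) (by positivity) ?_
      rw [hCe]; linarith
    calc C₁ * Real.sqrt η ≤ C₁ * (ε / (2 * C₁)) := mul_le_mul_of_nonneg_left h1 hC₁.le
      _ = ε / 2 := by field_simp
  obtain ⟨N, hN⟩ : ∃ N : ℕ, N = max (max L₀ q) ⌈C / ε ^ 2⌉₊ + 1 := ⟨_, rfl⟩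
  have hi : NeZero N := ⟨by omega⟩
  have hNr : C / ε ^ 2 ≤ (N : ℝ) := by
    refine (Nat.le_ceil _).trans ?_
    exact_mod_cast (le_max_right _ _).trans (by omega : max (max L₀ q) ⌈C / ε ^ 2⌉₊ ≤ N)
  obtain ⟨Ψ, hΨ, hTI⟩ := Pool.Agent.Y932.PE.groundExists d q N (by omega) (by omega) X
  obtain ⟨D, A, hD, hA⟩ := hL₀ N (by omega) Ψ hΨ hTI
  refine ⟨D, A, hD, ?_⟩
  intro L' _ hT' hL'
  obtain ⟨hA0, hA1⟩ := hA L' hT'
  refine ⟨hA0, fun Ψ' hΨT hΨN => ?_⟩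
  rw [← hηe] at hΨN
  have hqL' : q ≤ L' := by exact_mod_cast hqC.trans hL'
  have h1 := H η hη hη1 L' N hqL' (by omega) (by rw [hηi]; exact hL') (by rw [hηi]; exact hNr)
    Ψ' Ψ hΨT hTI hΨN (near_ground hΨ hη.le) R hR
  exact close_mono (close_trans h1 hA1) (by linarith)

end Pool.Agent.Zk71.AX
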