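import Pool.Agent.Zk71.AX.LipM

/-! # Averaged expectations of arbitrary vectors of low energy -/

set_option autoImplicit false
set_option linter.unusedSectionVars false

open scoped BigOperators ComplexConjugate Topology

noncomputable section

namespace Pool.Agent.Zk71.AX

open Pool.Agent.Y738.PE Pool.Agent.N658.TP

/-- The energy per site as a linear functional of the interaction. -/
theorem exists_av {d q M : ℕ} [NeZero M] (Φ : Conf d M → ℂ) :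
    ∃ ρ : (BConf d q → BConf d q → ℝ) →ₗ[ℝ] ℝ, ∀ Y, ρ Y = en (hermOf Y) M Φ / (M : ℝ) ^ 2 := by
  have hB := Pool.Agent.Y675.PE.energyB
  have h0 : en (hermOf (0 : BConf d q → BConf d q → ℝ)) M Φ = 0 := by
    have h := hB.2.1 d q M 0 0 1 Φ
    rw [one_smul, add_zero, one_mul] at h
    linarith
  refine ⟨{ toFun := fun Y => en (hermOf Y) M Φ / (M : ℝ) ^ 2, map_add' := ?_, map_smul' := ?_ },
    fun Y => rfl⟩
  · intro X Y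
    have h := hB.2.1 d q M X Y 1 Φ
    rw [one_smul, one_mul] at h
    rw [h, add_div]
  · intro t Y
    have h := hB.2.1 d q M 0 Y t Φ
    rw [zero_add, h0, zero_add] at h
    rw [h, RingHom.id_apply, smul_eq_mul, mul_div_assoc]

/-- A vector of low energy gives an approximate supergradient. -/
theorem supergN {d q : ℕ} (hd : 2 ≤ d) (F : (BConf d q → BConf d q → ℝ) → ℝ) (C₀ : ℝ)
    (hC₀ : 0 ≤ C₀) (hF : ∀ L : ℕ, q ≤ L → ∀ X, |gd L X - F X| ≤ C₀ * (1 + ‖X‖) / L)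
    (X X' : BConf d q → BConf d q → ℝ) (δ : ℝ) (hδ : 0 < δ) (hδ1 : δ ≤ 1) (hXX : ‖X' - X‖ ≤ δ)
    (M : ℕ) [NeZero M] (hqM : q ≤ M) (hM : 1 / δ ^ 2 ≤ (M : ℝ)) (Φ : Conf d M → ℂ)
    (hΦ : Near (hermOf X') M (δ ^ 2) Φ) (Z : BConf d q → BConf d q → ℝ) (hZ : ‖Z - X‖ ≤ 2) :
    F Z ≤ F X' + (C₀ * (2 + ‖X‖) + 1 + C₀ * (3 + ‖X‖)) * δ ^ 2 +
      en (hermOf (Z - X')) M (nz Φ) / (M : ℝ) ^ 2 := by
  have hB := Pool.Agent.Y675.PE.energyB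
  have hδ2 : 0 < δ ^ 2 := by positivity
  have h0 : 0 < nrm Φ := lt_of_le_of_ne (nrm_nonneg _) (Ne.symm hΦ.1)
  have hM0 : (0 : ℝ) < M := lt_of_lt_of_le (by positivity) hM
  have hM2 : (0 : ℝ) < (M : ℝ) ^ 2 := by positivity
  have hinv : ∀ a b : ℝ, 0 ≤ a → a ≤ b → a / M ≤ b * δ ^ 2 := by
    intro a b ha hab
    rw [div_eq_mul_inv]
    refine mul_le_mul hab ?_ (by positivity) (ha.trans hab)
    rw [inv_le_comm₀ hM0 hδ2, ← one_div]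
    exact hM
  have hnX := norm_nonneg X
  have hX'n : ‖X'‖ ≤ 1 + ‖X‖ := by
    have := norm_add_le (X' - X) X
    rw [sub_add_cancel] at this
    linarith
  have hZn : ‖Z‖ ≤ 2 + ‖X‖ := by
    have := norm_add_le (Z - X) X
    rw [sub_add_cancel] at this
    linarith
  obtain ⟨G, hG, -⟩ := Pool.Agent.Y932.PE.groundExists d q M (by omega) hqM X'
  have h1 := hΦ.2 G hG.1
  have h2 := hF M hqM X'
  rw [gd_eq X' G hG] at h2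
  have h3 := (abs_le.1 h2).2
  have h4 := hinv (C₀ * (1 + ‖X'‖)) (C₀ * (2 + ‖X‖)) (by have := norm_nonneg X'; positivity)
    (mul_le_mul_of_nonneg_left (by linarith) hC₀)
  have h5 : en (hermOf X') M G / (M : ℝ) ^ 2 ≤ F X' + C₀ * (2 + ‖X‖) * δ ^ 2 := by linarith
  rw [div_le_iff₀ hM2] at h5
  have h6 : en (hermOf X') M G + δ ^ 2 * (M : ℝ) ^ 2 ≤
      (F X' + (C₀ * (2 + ‖X‖) + 1) * δ ^ 2) * (M : ℝ) ^ 2 := by nlinarith
  have h7 : en (hermOf X') M (nz Φ) ≤ (F X' + (C₀ * (2 + ‖X‖) + 1) * δ ^ 2) * (M : ℝ) ^ 2 := by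
    rw [nz_en _ Φ hΦ.1, inv_mul_le_iff₀ h0]
    calc en (hermOf X') M Φ ≤ (en (hermOf X') M G + δ ^ 2 * (M : ℝ) ^ 2) * nrm Φ := h1
      _ ≤ ((F X' + (C₀ * (2 + ‖X‖) + 1) * δ ^ 2) * (M : ℝ) ^ 2) * nrm Φ :=
          mul_le_mul_of_nonneg_right h6 h0.le
      _ = _ := mul_comm _ _
  obtain ⟨G', hG', -⟩ := Pool.Agent.Y932.PE.groundExists d q M (by omega) hqM Z
  have h8 := hG'.2 (nz Φ) (nz_nrm Φ hΦ.1)
  rw [en_split hB X' Z (nz Φ)] at h8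
  have h9 := (abs_le.1 (hF M hqM Z)).1
  rw [gd_eq Z G' hG'] at h9
  have h10 := hinv (C₀ * (1 + ‖Z‖)) (C₀ * (3 + ‖X‖)) (by have := norm_nonneg Z; positivity)
    (mul_le_mul_of_nonneg_left (by linarith) hC₀)
  have h11 : en (hermOf Z) M G' / (M : ℝ) ^ 2 ≤ (F X' + (C₀ * (2 + ‖X‖) + 1) * δ ^ 2) +
      en (hermOf (Z - X')) M (nz Φ) / (M : ℝ) ^ 2 := by
    rw [div_le_iff₀ hM2, add_mul, div_mul_cancel₀ _ hM2.ne']
    linarith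
  linarith

/-- Averaged expectations of all vectors of low energy agree up to `O(δ)`. -/
def GenA (d q : ℕ) (X : BConf d q → BConf d q → ℝ) : Prop :=
  ∃ b : ℝ, 0 < b ∧ ∀ δ : ℝ, 0 < δ → δ ≤ 1 → ∀ X' : BConf d q → BConf d q → ℝ, ‖X' - X‖ ≤ δ →
    ∀ (L L' : ℕ) [NeZero L] [NeZero L'],
    q ≤ L → q ≤ L' → 1 / δ ^ 2 ≤ (L : ℝ) → 1 / δ ^ 2 ≤ (L' : ℝ) →
    ∀ (Ψ : Conf d L → ℂ) (Ψ' : Conf d L' → ℂ),
    Near (hermOf X) L (δ ^ 2) Ψ → Near (hermOf X') L' (δ ^ 2) Ψ' →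
    ∀ W : BConf d q → BConf d q → ℝ, ‖W‖ ≤ 1 →
      |en (hermOf W) L' (nz Ψ') / (L' : ℝ) ^ 2 - en (hermOf W) L (nz Ψ) / (L : ℝ) ^ 2| ≤ b * δ

theorem genA {d q : ℕ} (hd : 2 ≤ d) (F : (BConf d q → BConf d q → ℝ) → ℝ)
    (hcon : ConcaveOn ℝ Set.univ F) (C₀ : ℝ) (hC₀ : 0 ≤ C₀)
    (hF : ∀ L : ℕ, q ≤ L → ∀ X, |gd L X - F X| ≤ C₀ * (1 + ‖X‖) / L)
    (X : BConf d q → BConf d q → ℝ) (K : ℝ) (hK : 0 ≤ K)
    (hX : ∀ (σ τ : BConf d q) (t : ℝ), 0 ≤ t → t ≤ 1 →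
      2 * F X - F (X + t • sg σ τ) - F (X - t • sg σ τ) ≤ K * t ^ 2) : GenA d q X := by
  have hA := Pool.Agent.Y331.PE.t_EnergyA
  have hC := Pool.Agent.Y236.PE.energyC
  obtain ⟨N, hN⟩ : ∃ N : ℝ, N = (Fintype.card (BConf d q × BConf d q) : ℝ) := ⟨_, rfl⟩
  have hN0 : 0 < N := by
    have : Nonempty (BConf d q × BConf d q) := ⟨(fun _ => ⟨0, by omega⟩, fun _ => ⟨0, by omega⟩)⟩
    rw [hN]
    exact_mod_cast Fintype.card_pos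
  obtain ⟨c, hc⟩ : ∃ c : ℝ, c = C₀ * (2 + ‖X‖) + 1 + C₀ * (3 + ‖X‖) := ⟨_, rfl⟩
  have hnX := norm_nonneg X
  have hc0 : 0 < c := by rw [hc]; positivity
  obtain ⟨E, hE⟩ : ∃ E : ℝ, E = 4 * (Fintype.card (BConf d q) : ℝ) ^ 2 := ⟨_, rfl⟩
  have hE0 : 0 ≤ E := by rw [hE]; positivity
  obtain ⟨b, hb⟩ : ∃ b : ℝ, b = (3 * c + 4 * K * N ^ 2) + 4 * N * E := ⟨_, rfl⟩
  have hb0 : 0 < b := by rw [hb]; positivity
  refine ⟨b, hb0, ?_⟩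
  intro δ hδ hδ1 X' hXX L L' _ _ hqL hqL' hL hL' Ψ Ψ' hΨ hΨ'
  have n1 := nz_nrm Ψ hΨ.1
  have n2 := nz_nrm Ψ' hΨ'.1
  obtain ⟨ρ, hρ⟩ := exists_av (q := q) (nz Ψ)
  obtain ⟨ρ', hρ'⟩ := exists_av (q := q) (nz Ψ')
  have s1 : ∀ Z, ‖Z - X‖ ≤ 2 → F Z ≤ F X + c * δ ^ 2 + ρ (Z - X) := by
    intro Z hZ
    rw [hρ, hc]
    exact supergN hd F C₀ hC₀ hF X X δ hδ hδ1 (by rw [sub_self, norm_zero]; exact hδ.le) L hqL hL
      Ψ hΨ Z hZ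
  have s2 : ∀ Z, ‖Z - X‖ ≤ 2 → F Z ≤ F X' + c * δ ^ 2 + ρ' (Z - X') := by
    intro Z hZ
    rw [hρ', hc]
    exact supergN hd F C₀ hC₀ hF X X' δ hδ hδ1 hXX L' hqL' hL' Ψ' hΨ' Z hZ
  have triv : ∀ (M : ℕ) [NeZero M], q ≤ M → ∀ Φ : Conf d M → ℂ, nrm Φ = 1 →
      ∀ W : BConf d q → BConf d q → ℝ, ‖W‖ ≤ 1 → |en (hermOf W) M Φ / (M : ℝ) ^ 2| ≤ E := by
    intro M _ hqM Φ hΦ W hW
    have hM0 : M ≠ 0 := NeZero.ne M
    have hM2 : (0 : ℝ) < (M : ℝ) ^ 2 := by positivity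
    have k1 := hA.2.2 d q M hqM (hermOf W) Φ
    rw [hΦ, mul_one] at k1
    have k2 := hC.1 d q W
    rw [← hE] at k2
    rw [abs_div, abs_of_pos hM2, div_le_iff₀ hM2]
    have k3 : entrySum (hermOf W) ≤ E := by nlinarith [norm_nonneg W]
    nlinarith
  have key : ∀ W : BConf d q → BConf d q → ℝ, ‖W‖ ≤ 1 → ρ' W - ρ W ≤ b * δ := by
    intro W hW
    by_cases hδN : 2 * N * δ ≤ 1
    · have h1 := lip F hcon X K hK hX N hN hN0 δ hδ hδN hδ1 c ρ ρ' s1 X' hXX s2 W hW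
      refine h1.trans (mul_le_mul_of_nonneg_right ?_ hδ.le)
      rw [hb]
      have : 0 ≤ 4 * N * E := by positivity
      linarith
    · push Not at hδN
      have k1 := triv L hqL (nz Ψ) n1 W hW
      have k2 := triv L' hqL' (nz Ψ') n2 W hW
      rw [← hρ] at k1
      rw [← hρ'] at k2
      have k3 := (abs_le.1 k1).1
      have k4 := (abs_le.1 k2).2
      have k5 : 2 * E ≤ 4 * N * E * δ := by nlinarith
      have k6 : 0 ≤ (3 * c + 4 * K * N ^ 2) * δ := by positivity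
      rw [hb]
      nlinarith
  intro W hW
  rw [← hρ, ← hρ', abs_le]
  have k1 := key W hW
  have k2 := key (-W) (by rw [norm_neg]; exact hW)
  rw [map_neg, map_neg] at k2
  constructor <;> linarith

theorem ae_genA (d q : ℕ) (hd : 2 ≤ d) (hq : 0 < q) :
    ∀ᵐ X : BConf d q → BConf d q → ℝ, GenA d q X := by
  obtain ⟨F, C, C₀, hL, hcon, hC₀, hF⟩ := rate d q hd hq
  have h1 : ∀ᵐ X : BConf d q → BConf d q → ℝ, ∀ σ τ : BConf d q, ∃ K : ℝ, ∀ t : ℝ, 0 ≤ t → t ≤ 1 →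
      2 * F X - F (X + t • sg σ τ) - F (X - t • sg σ τ) ≤ K * t ^ 2 := by
    rw [MeasureTheory.ae_all_iff]
    intro σ
    rw [MeasureTheory.ae_all_iff]
    intro τ
    exact second_order MeasureTheory.volume F C hL hcon (sg σ τ)
  filter_upwards [h1] with X hX
  choose K hK using hX
  refine genA hd F hcon C₀ hC₀ hF X (∑ σ, ∑ τ, |K σ τ|)
    (Finset.sum_nonneg fun _ _ => Finset.sum_nonneg fun _ _ => abs_nonneg _) ?_
  intro σ τ t h0 h1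
  refine (hK σ τ t h0 h1).trans (mul_le_mul_of_nonneg_right ?_ (sq_nonneg t))
  calc K σ τ ≤ |K σ τ| := le_abs_self _
    _ ≤ ∑ τ, |K σ τ| := Finset.single_le_sum (f := fun τ => |K σ τ|) (fun _ _ => abs_nonneg _)
        (Finset.mem_univ τ)
    _ ≤ ∑ σ, ∑ τ, |K σ τ| := Finset.single_le_sum (f := fun σ => ∑ τ, |K σ τ|)
        (fun _ _ => Finset.sum_nonneg fun _ _ => abs_nonneg _) (Finset.mem_univ σ)

/-- Reduced density matrices on `q × q` boxes within `ε`. -/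
def CloseB {d L L' : ℕ} [NeZero L] [NeZero L'] (q : ℕ) (Ψ : Conf d L → ℂ) (Ψ' : Conf d L' → ℂ)
    (ε : ℝ) : Prop :=
  ∀ (u : Site L) (v : Site L') (B : BConf d q → BConf d q → ℂ), Contr B →
    ‖expec Ψ u B / (nrm Ψ : ℂ) - expec Ψ' v B / (nrm Ψ' : ℂ)‖ ≤ ε

theorem av_TI {d q M : ℕ} [NeZero M] (Φ : Conf d M → ℂ) (h0 : nrm Φ ≠ 0) (hT : TransInv Φ)
    (W : BConf d q → BConf d q → ℝ) :
    en (hermOf W) M (nz Φ) / (M : ℝ) ^ 2 = (expec (nz Φ) 0 (hermOf W)).re := by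
  have hM0 : M ≠ 0 := NeZero.ne M
  have hM2 : (M : ℝ) ^ 2 ≠ 0 := by positivity
  rw [Pool.Agent.Y331.PE.t_EnergyA.1 d q M (hermOf W) (nz Φ)
    (fun v => transInv_expec (nz Φ) (nz_nrm Φ h0) (nz_TI Φ hT) q v _), mul_div_cancel_left₀ _ hM2]

/-- `GenA` for translation invariant vectors: closeness of the reduced density matrices. -/
theorem genB {d q : ℕ} (X : BConf d q → BConf d q → ℝ) (H : GenA d q X) :
    ∃ C : ℝ, 0 < C ∧ ∀ δ : ℝ, 0 < δ → δ ≤ 1 → ∀ X' : BConf d q → BConf d q → ℝ, ‖X' - X‖ ≤ δ →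
    ∀ (L L' : ℕ) [NeZero L] [NeZero L'],
    q ≤ L → q ≤ L' → 1 / δ ^ 2 ≤ (L : ℝ) → 1 / δ ^ 2 ≤ (L' : ℝ) →
    ∀ (Ψ : Conf d L → ℂ) (Ψ' : Conf d L' → ℂ), TransInv Ψ → TransInv Ψ' →
    Near (hermOf X) L (δ ^ 2) Ψ → Near (hermOf X') L' (δ ^ 2) Ψ' → CloseB q Ψ Ψ' (C * δ) := by
  have hB := Pool.Agent.Y675.PE.energyB
  have hC := Pool.Agent.Y236.PE.energyC
  obtain ⟨b, hb, H⟩ := H
  refine ⟨2 * b, by positivity, ?_⟩
  intro δ hδ hδ1 X' hXX L L' _ _ hqL hqL' hL hL' Ψ Ψ' hT hT' hΨ hΨ'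
  have key := H δ hδ hδ1 X' hXX L L' hqL hqL' hL hL' Ψ Ψ' hΨ hΨ'
  have key2 : ∀ W : BConf d q → BConf d q → ℝ, ‖W‖ ≤ 1 →
      ‖expec (nz Ψ) 0 (hermOf W) - expec (nz Ψ') 0 (hermOf W)‖ ≤ b * δ := by
    intro W hW
    have e1 : expec (nz Ψ) 0 (hermOf W) = (((expec (nz Ψ) 0 (hermOf W)).re : ℝ) : ℂ) := by
      refine Complex.ext (by rw [Complex.ofReal_re]) ?_
      rw [hB.2.2 d q L hqL W (nz Ψ) 0, Complex.ofReal_im]
    have e2 : expec (nz Ψ') 0 (hermOf W) = (((expec (nz Ψ') 0 (hermOf W)).re : ℝ) : ℂ) := by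
      refine Complex.ext (by rw [Complex.ofReal_re]) ?_
      rw [hB.2.2 d q L' hqL' W (nz Ψ') 0, Complex.ofReal_im]
    rw [e1, e2, ← Complex.ofReal_sub, Complex.norm_real, Real.norm_eq_abs, abs_sub_comm,
      ← av_TI Ψ hΨ.1 hT, ← av_TI Ψ' hΨ'.1 hT']
    exact key W hW
  have t1 := transInv_expec (nz Ψ) (nz_nrm Ψ hΨ.1) (nz_TI Ψ hT) q
  have t2 := transInv_expec (nz Ψ') (nz_nrm Ψ' hΨ'.1) (nz_TI Ψ' hT') q
  intro u v B hBc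
  rw [← nz_expec Ψ hΨ.1, ← nz_expec Ψ' hΨ'.1, t1, t2]
  obtain ⟨Y, Z, hY, hZ, hYZ⟩ := hC.2 d q B hBc
  rw [expec_decomp (nz Ψ) 0 B _ _ hYZ, expec_decomp (nz Ψ') 0 B _ _ hYZ]
  have a1 := key2 Y hY
  have a2 := key2 Z hZ
  have e : expec (nz Ψ) 0 (hermOf Y) + Complex.I * expec (nz Ψ) 0 (hermOf Z) -
      (expec (nz Ψ') 0 (hermOf Y) + Complex.I * expec (nz Ψ') 0 (hermOf Z)) =
      (expec (nz Ψ) 0 (hermOf Y) - expec (nz Ψ') 0 (hermOf Y)) +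
      Complex.I * (expec (nz Ψ) 0 (hermOf Z) - expec (nz Ψ') 0 (hermOf Z)) := by ring
  rw [e]
  refine (norm_add_le _ _).trans ?_
  rw [norm_mul, Complex.norm_I, one_mul]
  linarith

end Pool.Agent.Zk71.AX
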