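import Pool.Agent.N711.TP.EnMul
import Pool.Agent.Y65.PE.Bound
import Pool.Agent.Y738.PE.Gen

/-! # Energies on smaller tori: cutting out a box -/

set_option autoImplicit false
set_option linter.unusedSectionVars false

open scoped BigOperators ComplexConjugate

noncomputable section

namespace Pool.Agent.Zk71.AX

open Pool.Agent.Y738.PE Pool.Agent.N658.TP
open Pool.Agent.Y155.PE (gE gE_apply eF)

section abs

variable {S β M : Type*} [Fintype S] [Fintype β] [AddCommMonoid M]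

lemma avg (bx : S → β) (pt : S → β → S) (h1 : ∀ s σ, bx (pt s σ) = σ)
    (h2 : ∀ s σ τ, pt (pt s σ) τ = pt s τ) (h3 : ∀ s, pt s (bx s) = s) (G : S → M) :
    ∑ s, ∑ σ, G (pt s σ) = ∑ s, ∑ _σ : β, G s := by
  rw [← Fintype.sum_prod_type' (fun s σ => G (pt s σ)),
    ← Fintype.sum_prod_type' (fun (s : S) (_ : β) => G s)]
  let e : S × β ≃ S × β :=
    { toFun := fun x => (pt x.1 x.2, bx x.1)
      invFun := fun x => (pt x.1 x.2, bx x.1)
      left_inv := fun x => by
        refine Prod.ext ?_ ?_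
        · simp only [h2, h3]
        · simp only [h1]
      right_inv := fun x => by
        refine Prod.ext ?_ ?_
        · simp only [h2, h3]
        · simp only [h1] }
  exact e.sum_comp (fun x => G x.1)

end abs

section cutE

variable {d L m q : ℕ} [NeZero L] [NeZero m]

/-- The conditional vector on the `m × m` torus. -/
def cnd (Ψ : Conf d L → ℂ) (s : Conf d L) : Conf d m → ℂ :=
  fun x => Ψ (put s 0 ((gE d m).symm x))

lemma cnd_glue (Ψ : Conf d L → ℂ) (s : Conf d L) (σ : BConf d m) :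
    cnd Ψ s (glue σ) = Ψ (put s 0 σ) := by
  unfold cnd
  rw [← gE_apply, Equiv.symm_apply_apply]

lemma cnd_nrm (hmL : m ≤ L) (Ψ : Conf d L → ℂ) :
    ∑ s, nrm (cnd (m := m) Ψ s) = (Fintype.card (BConf d m) : ℝ) * nrm Ψ := by
  have h1 : ∀ s, nrm (cnd (m := m) Ψ s) = ∑ σ : BConf d m, ‖Ψ (put s 0 σ)‖ ^ 2 := by
    intro s
    rw [← (Pool.Agent.Y155.PE.cut d m 0 (cnd Ψ s) (0, 0) ⟨by simp, by simp⟩ (fun _ _ => 0)).1]
    unfold nrm
    refine Finset.sum_congr rfl fun σ _ => ?_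
    change ‖cnd Ψ s (glue σ)‖ ^ 2 = _
    rw [cnd_glue]
  simp only [h1]
  rw [avg (fun s => box m s 0) (fun s τ => put s 0 τ)
    (fun s σ => Pool.Agent.Y65.PE.box_put hmL s 0 σ) (fun s σ τ => Pool.Agent.Y65.PE.put_put s 0 σ τ)
    (fun s => Pool.Agent.Y65.PE.put_box s 0) (fun s => ‖Ψ s‖ ^ 2)]
  simp only [Finset.sum_const, Finset.card_univ, nsmul_eq_mul, nrm]
  rw [← Finset.mul_sum]

lemma cnd_expec (hq : 0 < q) (hmL : m ≤ L) (Ψ : Conf d L → ℂ) (p : ℕ × ℕ)
    (h : p.1 + q ≤ m ∧ p.2 + q ≤ m) (B : BConf d q → BConf d q → ℂ) :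
    ∑ s, expec (cnd (m := m) Ψ s) (((p.1 : ℕ) : ZMod m), ((p.2 : ℕ) : ZMod m)) B =
      (Fintype.card (BConf d m) : ℂ) *
        expec Ψ ((0 : Site L).1 + ((p.1 : ℕ) : ZMod L), (0 : Site L).2 + ((p.2 : ℕ) : ZMod L)) B := by
  set v : Site L := ((0 : Site L).1 + ((p.1 : ℕ) : ZMod L), (0 : Site L).2 + ((p.2 : ℕ) : ZMod L))
    with hv
  set G : Conf d L → ℂ := fun s => ∑ τ : BConf d q, conj (Ψ s) * B (box q s v) τ * Ψ (put s v τ)
    with hG
  have h1 : ∀ s, expec (cnd (m := m) Ψ s) (((p.1 : ℕ) : ZMod m), ((p.2 : ℕ) : ZMod m)) B =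
      ∑ σ : BConf d m, G (put s 0 σ) := by
    intro s
    rw [← (Pool.Agent.Y155.PE.cut d m q (cnd Ψ s) p h B).2 hq]
    unfold expecBlock
    refine Finset.sum_congr rfl fun σ _ => ?_
    rw [hG]
    simp only
    refine Finset.sum_congr rfl fun τ _ => ?_
    have e1 : box q (put s 0 σ) v = subBox σ p h := by
      rw [hv, Pool.Agent.N711.TP.EnMul.box_sub (m := m) (put s 0 σ) 0 p h,
        Pool.Agent.Y65.PE.box_put hmL s 0 σ]
    have e2 : put (put s 0 σ) v τ = put s 0 (subPut σ p τ) := by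
      rw [hv, Pool.Agent.N711.TP.EnMul.put_sub hmL (put s 0 σ) 0 p h τ,
        Pool.Agent.Y65.PE.box_put hmL s 0 σ, Pool.Agent.Y65.PE.put_put]
    rw [e1, e2, cnd_glue, cnd_glue]
  simp only [h1]
  rw [avg (fun s => box m s 0) (fun s τ => put s 0 τ)
    (fun s σ => Pool.Agent.Y65.PE.box_put hmL s 0 σ) (fun s σ τ => Pool.Agent.Y65.PE.put_put s 0 σ τ)
    (fun s => Pool.Agent.Y65.PE.put_box s 0) G]
  simp only [Finset.sum_const, Finset.card_univ, nsmul_eq_mul]
  rw [← Finset.mul_sum]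
  rfl

open Classical in
/-- A translation invariant vector gives a vector on each smaller torus with almost the same energy
density. -/
theorem cutE (hd : 0 < d) (hq : 0 < q) (hqm : q ≤ m) (hmL : m ≤ L) (h : BConf d q → BConf d q → ℂ)
    (Ψ : Conf d L → ℂ) (hΨ : nrm Ψ = 1) (hTI : ∀ v, expec Ψ v h = expec Ψ 0 h) :
    ∃ φ : Conf d m → ℂ, nrm φ = 1 ∧
      en h m φ ≤ (m : ℝ) ^ 2 * (expec Ψ 0 h).re + 4 * q * entrySum h * m := by
  have hE0 : 0 ≤ entrySum h := Finset.sum_nonneg fun _ _ => Finset.sum_nonneg fun _ _ =>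
    norm_nonneg _
  set e : ℝ := (expec Ψ 0 h).re with he
  set E : ℝ := entrySum h with hE
  set c : ℝ := (m : ℝ) ^ 2 * e + 4 * q * E * m with hc
  set N : ℝ := (Fintype.card (BConf d m) : ℝ) with hN
  have hN0 : 0 < N := by
    have : Nonempty (BConf d m) := ⟨fun _ => ⟨0, hd⟩⟩
    rw [hN]
    exact_mod_cast Fintype.card_pos
  have heE : |e| ≤ E := by
    have k1 := Pool.Agent.Y331.PE.crude (hqm.trans hmL) h Ψ 0
    rw [hΨ, mul_one] at k1
    exact (Complex.abs_re_le_norm _).trans k1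
  have hnrm := cnd_nrm (m := m) hmL Ψ
  rw [hΨ, mul_one] at hnrm
  -- the energies
  have h1 : ∀ s, en h m (cnd Ψ s) ≤ ∑ p : Fin m × Fin m,
      (if (p.1 : ℕ) + q ≤ m ∧ (p.2 : ℕ) + q ≤ m then
        (expec (cnd (m := m) Ψ s) (((p.1 : ℕ) : ZMod m), ((p.2 : ℕ) : ZMod m)) h).re
        else E * nrm (cnd (m := m) Ψ s)) := by
    intro s
    unfold en
    rw [Pool.Agent.Y331.PE.sum_eq, Complex.re_sum]
    have h2 : ∑ p : Fin m × Fin m,
        (expec (cnd (m := m) Ψ s) (((p.1 : ℕ) : ZMod m), ((p.2 : ℕ) : ZMod m)) h).re =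
        ∑ v : Site m, (expec (cnd (m := m) Ψ s) v h).re :=
      ((eF m).prodCongr (eF m)).sum_comp (fun v : Site m => (expec (cnd (m := m) Ψ s) v h).re)
    rw [← h2]
    refine Finset.sum_le_sum fun p _ => ?_
    split_ifs with hp
    · exact le_rfl
    · exact (le_abs_self _).trans ((Complex.abs_re_le_norm _).trans
        (Pool.Agent.Y331.PE.crude hqm h _ _))
  have h3 : ∑ s, en h m (cnd (m := m) Ψ s) ≤ N * c := by
    refine (Finset.sum_le_sum fun s _ => h1 s).trans ?_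
    rw [Finset.sum_comm]
    have h4 : ∀ p : Fin m × Fin m, ∑ s, (if (p.1 : ℕ) + q ≤ m ∧ (p.2 : ℕ) + q ≤ m then
        (expec (cnd (m := m) Ψ s) (((p.1 : ℕ) : ZMod m), ((p.2 : ℕ) : ZMod m)) h).re
        else E * nrm (cnd (m := m) Ψ s)) ≤
        N * (e + 2 * E * (if (p.1 : ℕ) + q ≤ m ∧ (p.2 : ℕ) + q ≤ m then (0 : ℝ) else 1)) := by
      intro p
      by_cases hp : (p.1 : ℕ) + q ≤ m ∧ (p.2 : ℕ) + q ≤ m
      · simp only [if_pos hp, mul_zero, add_zero]
        rw [← Complex.re_sum, cnd_expec hq hmL Ψ ((p.1 : ℕ), (p.2 : ℕ)) hp h, hTI,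
          ← Complex.ofReal_natCast, Complex.re_ofReal_mul]
      · simp only [if_neg hp]
        rw [← Finset.mul_sum, hnrm]
        have := (abs_le.1 heE).1
        nlinarith
    refine (Finset.sum_le_sum fun p _ => h4 p).trans ?_
    rw [← Finset.mul_sum, Finset.sum_add_distrib, ← Finset.mul_sum, Finset.sum_const,
      Finset.card_univ, Fintype.card_prod, Fintype.card_fin, nsmul_eq_mul]
    have k5 := Pool.Agent.N711.TP.EnMul.card_bad m q
    have k6 : 2 * E * ∑ p : Fin m × Fin m,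
        (if (p.1 : ℕ) + q ≤ m ∧ (p.2 : ℕ) + q ≤ m then (0 : ℝ) else 1) ≤
        2 * E * (2 * q * m) := mul_le_mul_of_nonneg_left k5 (by positivity)
    refine mul_le_mul_of_nonneg_left ?_ hN0.le
    push_cast
    rw [hc]
    nlinarith
  -- some conditional vector is good
  obtain ⟨s, hs, hse⟩ : ∃ s, 0 < nrm (cnd (m := m) Ψ s) ∧
      en h m (cnd (m := m) Ψ s) ≤ c * nrm (cnd (m := m) Ψ s) := by
    by_contra hcon
    push Not at hcon
    have h5 : ∑ s, c * nrm (cnd (m := m) Ψ s) < ∑ s, en h m (cnd (m := m) Ψ s) := by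
      refine Finset.sum_lt_sum (fun s _ => ?_) ?_
      · rcases (nrm_nonneg (cnd (m := m) Ψ s)).eq_or_lt with h0 | h0
        · rw [← h0, mul_zero]
          have h6 : ∀ x, cnd (m := m) Ψ s x = 0 := by
            intro x
            have h7 : ‖cnd (m := m) Ψ s x‖ ^ 2 ≤ nrm (cnd (m := m) Ψ s) :=
              Finset.single_le_sum (f := fun x => ‖cnd (m := m) Ψ s x‖ ^ 2)
                (fun _ _ => by positivity) (Finset.mem_univ x)
            rw [← h0] at h7
            have h8 : ‖cnd (m := m) Ψ s x‖ = 0 := by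
              have := norm_nonneg (cnd (m := m) Ψ s x)
              nlinarith
            exact norm_eq_zero.1 h8
          unfold en
          simp only [h6, map_zero, zero_mul, Finset.sum_const_zero, Complex.zero_re, le_refl]
        · exact (hcon s h0).le
      · by_contra hno
        push Not at hno
        have h6 : ∀ s, nrm (cnd (m := m) Ψ s) = 0 := by
          intro s
          by_contra hne
          have h7 : 0 < nrm (cnd (m := m) Ψ s) :=
            lt_of_le_of_ne (nrm_nonneg _) (Ne.symm hne)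
          exact absurd (hcon s h7) (not_lt.2 (hno s (Finset.mem_univ s)))
        simp only [h6, Finset.sum_const_zero] at hnrm
        exact hN0.ne' hnrm.symm
    rw [← Finset.mul_sum, hnrm] at h5
    linarith [mul_comm c N]
  -- normalise
  set z : ℂ := (((Real.sqrt (nrm (cnd (m := m) Ψ s)))⁻¹ : ℝ) : ℂ) with hz
  have hzn : ‖z‖ ^ 2 = (nrm (cnd (m := m) Ψ s))⁻¹ := by
    rw [hz, Complex.norm_real, Real.norm_eq_abs, sq_abs, inv_pow, Real.sq_sqrt hs.le]
  refine ⟨fun x => z * cnd Ψ s x, ?_, ?_⟩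
  · rw [nrm_smul, hzn, inv_mul_cancel₀ hs.ne']
  · rw [en_smul, hzn, inv_mul_le_iff₀ hs]
    linarith [mul_comm c (nrm (cnd (m := m) Ψ s))]

end cutE

end Pool.Agent.Zk71.AX
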