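import Pool.Agent.Zk71.AX.Av
import Pool.Agent.N658.TP.In
import Pool.Agent.N658.TP.AsmA2

/-! # From a PEPS of low energy to one translation invariant tensor for all states -/

set_option autoImplicit false
set_option linter.unusedSectionVars false

open scoped BigOperators ComplexConjugate Topology

noncomputable section

namespace Pool.Agent.Zk71.AX

open Pool.Agent.Y738.PE Pool.Agent.N658.TP

theorem closeB_symm {d L L' q : ℕ} [NeZero L] [NeZero L'] {Ψ : Conf d L → ℂ}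
    {Ψ' : Conf d L' → ℂ} {ε : ℝ} (H : CloseB q Ψ Ψ' ε) : CloseB q Ψ' Ψ ε := by
  intro u v B hB
  rw [norm_sub_rev]
  exact H v u B hB

theorem closeB_trans {d L L' L'' q : ℕ} [NeZero L] [NeZero L'] [NeZero L''] {Ψ : Conf d L → ℂ}
    {Ψ' : Conf d L' → ℂ} {Ψ'' : Conf d L'' → ℂ} {ε ε' : ℝ} (H : CloseB q Ψ Ψ' ε)
    (H' : CloseB q Ψ' Ψ'' ε') : CloseB q Ψ Ψ'' (ε + ε') := by
  intro u v B hB
  have h1 := H u 0 B hB
  have h2 := H' 0 v B hB
  have e : expec Ψ u B / (nrm Ψ : ℂ) - expec Ψ'' v B / (nrm Ψ'' : ℂ) =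
      (expec Ψ u B / (nrm Ψ : ℂ) - expec Ψ' 0 B / (nrm Ψ' : ℂ)) +
      (expec Ψ' 0 B / (nrm Ψ' : ℂ) - expec Ψ'' v B / (nrm Ψ'' : ℂ)) := by ring
  rw [e]
  exact (norm_add_le _ _).trans (add_le_add h1 h2)

theorem closeB_mono {d L L' q : ℕ} [NeZero L] [NeZero L'] {Ψ : Conf d L → ℂ}
    {Ψ' : Conf d L' → ℂ} {ε ε' : ℝ} (H : CloseB q Ψ Ψ' ε) (h : ε ≤ ε') : CloseB q Ψ Ψ' ε' :=
  fun u v B hB => (H u v B hB).trans h

/-- The normalised vector of a PEPS is a PEPS. -/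
theorem nz_peps {d m : ℕ} [NeZero m] {κ : Type} [Fintype κ]
    (P : Site m → Fin d → κ → κ → κ → κ → ℂ) :
    pepsN (scaleC (((Real.sqrt (nrm (pepsN P)))⁻¹ : ℝ) : ℂ) P) = nz (pepsN P) := by
  funext s
  rw [pepsN_scale]
  rfl

/-- One PEPS of low energy reaches the marginals of a ground state in every direction. -/
theorem reach {d q : ℕ} (X : BConf d q → BConf d q → ℝ) (b δ : ℝ)
    (X' : BConf d q → BConf d q → ℝ) (L m f : ℕ) [NeZero L] [NeZero m] (hqL : q ≤ L)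
    (hqm : q ≤ m) (Ψ : Conf d L → ℂ) (hn : nrm Ψ = 1) (hT : TransInv Ψ)
    (P : Site m → Tensor d f) (hP : nrm (pepsN P) ≠ 0)
    (H : ∀ W : BConf d q → BConf d q → ℝ, ‖W‖ ≤ 1 →
      |en (hermOf W) m (nz (pepsN P)) / (m : ℝ) ^ 2 - en (hermOf W) L (nz Ψ) / (L : ℝ) ^ 2| ≤
        b * δ) :
    Reach d q m f (fun B => expec Ψ 0 B) (b * δ) := by
  have hB := Pool.Agent.Y675.PE.energyB
  have hC := Pool.Agent.Y236.PE.energyC
  intro B _ hBc
  obtain ⟨Y, Z, hY, hZ, hYZ⟩ := hC.2 d q B hBc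
  refine ⟨scaleC (((Real.sqrt (nrm (pepsN P)))⁻¹ : ℝ) : ℂ) P, ?_, ?_⟩
  · rw [nz_peps, nz_nrm _ hP]
  · rw [nz_peps]
    have hm0 : m ≠ 0 := NeZero.ne m
    have hm2 : (0 : ℝ) < (m : ℝ) ^ 2 := by positivity
    have hre : ∀ (M : ℕ) [NeZero M], q ≤ M → ∀ (Φ : Conf d M → ℂ) (v : Site M),
        (expec Φ v B).re = (expec Φ v (hermOf Y)).re := by
      intro M _ hqM Φ v
      rw [expec_decomp Φ v B _ _ hYZ, Complex.add_re, Complex.mul_re, Complex.I_re, Complex.I_im,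
        hB.2.2 d q M hqM Z Φ v]
      ring
    have h1 : (enS (nz (pepsN P)) B).re = en (hermOf Y) m (nz (pepsN P)) := by
      unfold enS en
      rw [Pool.Agent.Y331.PE.sum_eq, Complex.re_sum, Complex.re_sum]
      exact Finset.sum_congr rfl fun v _ => hre m hqm _ v
    have hn0 : nrm Ψ ≠ 0 := by rw [hn]; exact one_ne_zero
    have h2 : en (hermOf Y) L (nz Ψ) / (L : ℝ) ^ 2 = (expec Ψ 0 (hermOf Y)).re := by
      rw [av_TI Ψ hn0 hT, nz_expec Ψ hn0, hn]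
      simp
    have h3 := (abs_le.1 (H Y hY)).2
    rw [h2] at h3
    rw [h1, hre L hqL Ψ 0, ← div_le_iff₀ hm2]
    linarith

/-- From one PEPS of low energy to one translation invariant tensor for all states of low energy,
all nearby interactions and all sizes. -/
theorem pepsE {d q : ℕ} (hd : 2 ≤ d) (hq : 0 < q) (X : BConf d q → BConf d q → ℝ)
    (hX : GenA d q X) : ∃ C : ℝ, 1 ≤ C ∧ ∀ ε : ℝ, 0 < ε → ε ≤ 1 → ∀ (m f : ℕ) [NeZero m],
    (C / ε) ^ 2 ≤ (m : ℝ) → ∀ (P : Site m → Tensor d f) (X₁ : BConf d q → BConf d q → ℝ),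
    (∀ σ τ, |X₁ σ τ - X σ τ| ≤ ε / C) → Near (hermOf X₁) m ((ε / C) ^ 2) (pepsN P) →
    ∃ (D : ℕ) (A : Tensor d D), (D : ℝ) ≤ C * (m / ε) ^ 2 * (f : ℝ) ^ 4 ∧
      ∀ (L : ℕ) [NeZero L], C * (m / ε) ^ 2 ≤ (L : ℝ) →
        nrm (pepsX A L) ≠ 0 ∧ ∀ X' : BConf d q → BConf d q → ℝ, (∀ σ τ, |X' σ τ - X σ τ| ≤ ε / C) →
        ∀ Ψ : Conf d L → ℂ, TransInv Ψ → Near (hermOf X') L ((ε / C) ^ 2) Ψ →
          CloseB q Ψ (pepsX A L) ε := by
  obtain ⟨c, hc, hpipe⟩ := pipe' d q hd hq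
  obtain ⟨C₁, hC₁, HB⟩ := genB X hX
  obtain ⟨b, hb, HA⟩ := hX
  have hq0 : (0 : ℝ) ≤ q := Nat.cast_nonneg q
  have hnT : (0 : ℝ) ≤ nT d q := Nat.cast_nonneg _
  obtain ⟨C, hCe⟩ : ∃ C : ℝ, C = 4 * c + 4 * c * b + 4 * C₁ + 160000 * nT d q + q + 160000 :=
    ⟨_, rfl⟩
  have hcb : 0 < c * b := by positivity
  have hC1 : 1 ≤ C := by rw [hCe]; nlinarith
  have hC0 : 0 < C := by linarith
  refine ⟨C, hC1, ?_⟩
  intro ε hε hε1 m f _ hm P X₁ hX₁ hP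
  obtain ⟨δ, hδe⟩ : ∃ δ : ℝ, δ = ε / C := ⟨_, rfl⟩
  have hδ : 0 < δ := by rw [hδe]; positivity
  have hδ1 : δ ≤ 1 := by
    rw [hδe, div_le_one hC0]
    linarith
  have hδi : 1 / δ ^ 2 = (C / ε) ^ 2 := by rw [hδe, div_pow, div_pow, one_div_div]
  have hCε : C ≤ C / ε := by rw [le_div_iff₀ hε]; nlinarith
  have hCε1 : 1 ≤ C / ε := hC1.trans hCε
  have hCε2 : C / ε ≤ (C / ε) ^ 2 := by nlinarith
  have hmC : C / ε ≤ m := hCε2.trans hm
  have hqC : (q : ℝ) ≤ (C / ε) ^ 2 := by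
    have h1 : (q : ℝ) ≤ C := by rw [hCe]; nlinarith
    linarith
  have hm1 : (1 : ℝ) ≤ m := by linarith
  have hqm : q ≤ m := by exact_mod_cast hqC.trans hm
  have hnorm : ∀ X' : BConf d q → BConf d q → ℝ, (∀ σ τ, |X' σ τ - X σ τ| ≤ ε / C) →
      ‖X' - X‖ ≤ δ := by
    intro X' hX'
    refine (pi_norm_le_iff_of_nonneg hδ.le).2 fun σ => ?_
    refine (pi_norm_le_iff_of_nonneg hδ.le).2 fun τ => ?_
    rw [hδe]
    exact hX' σ τ
  rw [← hδe] at hP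
  -- a reference ground state
  obtain ⟨N, hN⟩ : ∃ N : ℕ, N = max q ⌈(C / ε) ^ 2⌉₊ + 1 := ⟨_, rfl⟩
  have hi : NeZero N := ⟨by omega⟩
  have hNr : (C / ε) ^ 2 ≤ (N : ℝ) := by
    refine (Nat.le_ceil _).trans ?_
    exact_mod_cast (le_max_right _ _).trans (by omega : max q ⌈(C / ε) ^ 2⌉₊ ≤ N)
  obtain ⟨Φ, hΦ, hTI⟩ := Pool.Agent.Y932.PE.groundExists d q N (by omega) (by omega) X
  have hav := HA δ hδ hδ1 X₁ (hnorm X₁ hX₁) N m (by omega) hqm (by rw [hδi]; exact hNr)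
    (by rw [hδi]; exact hm) Φ (pepsN P) (near_ground hΦ (sq_nonneg δ)) hP
  have hreach := reach X b δ X₁ N m f (by omega) hqm Φ hΦ.1 hTI P hP.1 hav
  obtain ⟨A, hA⟩ := hpipe (ε / 4) (by linarith) (by linarith) m f N (by
    rw [div_div_eq_mul_div]
    refine le_trans ?_ hmC
    refine div_le_div_of_nonneg_right ?_ hε.le
    rw [hCe]; nlinarith) (by omega) Φ hΦ.1 (b * δ) (by positivity) hreach
  have hme : (1 : ℝ) ≤ m / ε := by rw [le_div_iff₀ hε]; linarith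
  have hceil : (⌈24 / (ε / 4)⌉₊ : ℝ) ≤ 97 / ε := by
    have h1 := (Nat.ceil_lt_add_one (by positivity : 0 ≤ 24 / (ε / 4))).le
    have h2 : 24 / (ε / 4) + 1 ≤ 97 / ε := by
      rw [div_div_eq_mul_div, div_add_one hε.ne', div_le_div_iff_of_pos_right hε]
      linarith
    linarith
  have hprod : ((m : ℝ) + 1) * ⌈24 / (ε / 4)⌉₊ ≤ 194 * (m / ε) := by
    calc ((m : ℝ) + 1) * ⌈24 / (ε / 4)⌉₊ ≤ (2 * m) * (97 / ε) :=
          mul_le_mul (by linarith) hceil (Nat.cast_nonneg _) (by positivity)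
      _ = 194 * (m / ε) := by ring
  refine ⟨_, A, ?_, ?_⟩
  · unfold bondH
    push_cast
    have h1 : (2 * (((m : ℝ) + 1) * ⌈24 / (ε / 4)⌉₊ + 2)) ^ 2 ≤ (400 * (m / ε)) ^ 2 := by
      refine pow_le_pow_left₀ (by positivity) ?_ 2
      linarith
    have h2 : (400 * ((m : ℝ) / ε)) ^ 2 * (nT d q * (f : ℝ) ^ 4) ≤
        C * (m / ε) ^ 2 * (f : ℝ) ^ 4 := by
      have h3 : 160000 * (nT d q : ℝ) ≤ C := by rw [hCe]; nlinarith
      calc (400 * ((m : ℝ) / ε)) ^ 2 * (nT d q * (f : ℝ) ^ 4) =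
          (160000 * (nT d q : ℝ)) * ((m / ε) ^ 2 * (f : ℝ) ^ 4) := by ring
        _ ≤ C * ((m / ε) ^ 2 * (f : ℝ) ^ 4) := mul_le_mul_of_nonneg_right h3 (by positivity)
        _ = C * (m / ε) ^ 2 * (f : ℝ) ^ 4 := by ring
    exact (mul_le_mul_of_nonneg_right h1 (by positivity)).trans h2
  · intro L _ hL
    have hL1 : (q : ℝ) + (((m : ℝ) + 1) * ⌈24 / (ε / 4)⌉₊ + 3) ^ 2 ≤ L := by
      refine le_trans ?_ hL
      have h1 : (((m : ℝ) + 1) * ⌈24 / (ε / 4)⌉₊ + 3) ^ 2 ≤ (400 * (m / ε)) ^ 2 := by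
        refine pow_le_pow_left₀ (by positivity) ?_ 2
        linarith
      have h2 : (q : ℝ) + 160000 ≤ C := by rw [hCe]; nlinarith
      have h3 : (1 : ℝ) ≤ (m / ε) ^ 2 := by nlinarith
      nlinarith
    have hL2 : q + ((m + 1) * ⌈24 / (ε / 4)⌉₊ + 3) ^ 2 ≤ L := by exact_mod_cast hL1
    obtain ⟨hA0, hA1⟩ := hA L hL2
    have hLC : (C / ε) ^ 2 ≤ (L : ℝ) := by
      refine hm.trans (le_trans ?_ hL)
      have h1 : (m : ℝ) ≤ m / ε := by rw [le_div_iff₀ hε]; nlinarith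
      have h2 : (m : ℝ) / ε ≤ (m / ε) ^ 2 := by nlinarith
      nlinarith
    have hqL : q ≤ L := by exact_mod_cast hqC.trans hLC
    have hclose : CloseB q Φ (pepsX A L) (ε / 2) := by
      intro u v B hBc
      have h1 := hA1 B hBc v
      have h2 := transInv_expec Φ hΦ.1 hTI q u B
      rw [h2, hΦ.1, norm_sub_rev]
      have h3 : c * (b * δ) ≤ ε / 4 := by
        rw [hδe]
        have : c * (b * (ε / C)) = (c * b) * ε / C := by ring
        rw [this, div_le_div_iff₀ hC0 (by norm_num : (0 : ℝ) < 4)]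
        have : 4 * (c * b) ≤ C := by rw [hCe]; nlinarith
        nlinarith
      simpa using h1.trans (by linarith : ε / 4 + c * (b * δ) ≤ ε / 2)
    refine ⟨hA0.ne', fun X' hX' Ψ hT hΨ => ?_⟩
    rw [← hδe] at hΨ
    have h5 := HB δ hδ hδ1 X' (hnorm X' hX') N L (by omega) hqL (by rw [hδi]; exact hNr)
      (by rw [hδi]; exact hLC) Φ Ψ hTI hT (near_ground hΦ (sq_nonneg δ)) hΨ
    have h6 : C₁ * δ ≤ ε / 4 := by
      rw [hδe, mul_div_assoc', div_le_div_iff₀ hC0 (by norm_num : (0 : ℝ) < 4)]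
      have : 4 * C₁ ≤ C := by rw [hCe]; nlinarith
      nlinarith
    exact closeB_mono (closeB_trans (closeB_symm h5) hclose) (by linarith)

end Pool.Agent.Zk71.AX
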