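import Pool.Agent.Zk71.AX.EnP

/-! # Efficient approximation of marginals and of energies -/

set_option autoImplicit false
set_option linter.unusedSectionVars false

open scoped BigOperators ComplexConjugate Topology

noncomputable section

namespace Pool.Agent.Zk71.AX

open Pool.Agent.Y738.PE Pool.Agent.N658.TP

/-- The ground energy per site is efficiently approximated by PEPS with arbitrary tensors. -/
def EnergyEff {d q : ℕ} (h : BConf d q → BConf d q → ℂ) : Prop :=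
  ∃ N : ℕ, ∀ η : ℝ, 0 < η → η ≤ 1 → ∃ (m : ℕ) (_ : NeZero m) (f : ℕ) (P : Site m → Tensor d f),
    1 / η ≤ (m : ℝ) ∧ (m : ℝ) ≤ (2 / η) ^ N ∧ (f : ℝ) ≤ (2 / η) ^ N ∧ Near h m η (pepsN P)

/-- The reduced density matrices on boxes of all translation invariant ground states are efficiently
approximated by one tensor. -/
def LocalEff {d q : ℕ} (h : BConf d q → BConf d q → ℂ) : Prop :=
  ∃ N : ℕ, ∀ ε : ℝ, 0 < ε → ε ≤ 1 → ∃ (D : ℕ) (A : Tensor d D), (D : ℝ) ≤ (2 / ε) ^ N ∧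
    ∀ (L : ℕ) [NeZero L], (2 / ε) ^ N ≤ (L : ℝ) → nrm (pepsX A L) ≠ 0 ∧
      ∀ Ψ : Conf d L → ℂ, IsGround h L Ψ → TransInv Ψ → CloseB q Ψ (pepsX A L) ε

/-- Box marginals determine the energy. -/
theorem near_of_closeB {d q L : ℕ} [NeZero L] (hqL : q ≤ L) (h : BConf d q → BConf d q → ℂ) {D : ℕ}
    (A : Tensor d D) (hA : nrm (pepsX A L) ≠ 0) (Ψ : Conf d L → ℂ) (hΨ : IsGround h L Ψ)
    (hT : TransInv Ψ) (ε : ℝ) (H : CloseB q Ψ (pepsX A L) ε) :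
    Near h L ((entrySum h + 1) * ε) (pepsX A L) := by
  have hPTI := Pool.Agent.Y328.PE.pepsMain
  have hEA := Pool.Agent.Y331.PE.t_EnergyA
  refine ⟨hA, fun φ hφ => ?_⟩
  have hn : 0 < nrm (pepsX A L) := lt_of_le_of_ne (nrm_nonneg _) (Ne.symm hA)
  set c : ℝ := entrySum h + 1 with hc
  have hc0 : 0 < c := by
    have : 0 ≤ entrySum h := Finset.sum_nonneg fun _ _ => Finset.sum_nonneg fun _ _ => norm_nonneg _
    linarith
  have h2 := H 0 0 _ (contr_inv d q h c hc0 (by linarith))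
  have hlin : ∀ (Q : Conf d L → ℂ), expec Q 0 (fun σ τ => ((c⁻¹ : ℝ) : ℂ) * h σ τ) =
      ((c⁻¹ : ℝ) : ℂ) * expec Q 0 h := by
    intro Q
    unfold expec
    rw [Finset.mul_sum]
    refine Finset.sum_congr rfl fun s _ => ?_
    rw [Finset.mul_sum]
    refine Finset.sum_congr rfl fun τ _ => ?_
    ring
  rw [hlin, hlin, hΨ.1, norm_sub_rev] at h2
  have h3 : ‖expec (pepsX A L) 0 h / (nrm (pepsX A L) : ℂ) - expec Ψ 0 h‖ ≤ c * ε := by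
    have e1 : ((c⁻¹ : ℝ) : ℂ) * expec (pepsX A L) 0 h / (nrm (pepsX A L) : ℂ) -
        ((c⁻¹ : ℝ) : ℂ) * expec Ψ 0 h / ((1 : ℝ) : ℂ) = ((c⁻¹ : ℝ) : ℂ) *
        (expec (pepsX A L) 0 h / (nrm (pepsX A L) : ℂ) - expec Ψ 0 h) := by
      rw [Complex.ofReal_one, div_one]
      ring
    rw [e1, norm_mul, Complex.norm_real, Real.norm_eq_abs, abs_of_pos (inv_pos.2 hc0),
      inv_mul_le_iff₀ hc0] at h2
    exact h2
  have h4 : (expec (pepsX A L) 0 h / (nrm (pepsX A L) : ℂ)).re ≤ (expec Ψ 0 h).re + c * ε := by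
    have h5 := Complex.re_le_norm (expec (pepsX A L) 0 h / (nrm (pepsX A L) : ℂ) - expec Ψ 0 h)
    rw [Complex.sub_re] at h5
    linarith
  rw [Complex.div_ofReal_re, div_le_iff₀ hn] at h4
  have e1 := hEA.1 d q L h (pepsX A L) (fun v => hPTI d L _ A q v h)
  have e2 := hEA.1 d q L h Ψ (fun v => transInv_expec Ψ hΨ.1 hT q v h)
  have h6 := hΨ.2 φ hφ
  rw [e1]
  have hL2 : (0 : ℝ) ≤ (L : ℝ) ^ 2 := by positivity
  calc (L : ℝ) ^ 2 * (expec (pepsX A L) 0 h).re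
      ≤ (L : ℝ) ^ 2 * (((expec Ψ 0 h).re + c * ε) * nrm (pepsX A L)) :=
        mul_le_mul_of_nonneg_left h4 hL2
    _ = (en h L Ψ + c * ε * (L : ℝ) ^ 2) * nrm (pepsX A L) := by rw [e2]; ring
    _ ≤ (en h L φ + c * ε * (L : ℝ) ^ 2) * nrm (pepsX A L) :=
        mul_le_mul_of_nonneg_right (by linarith) hn.le

theorem pow_bd (a : ℝ) : ∃ k : ℕ, a ≤ (2 : ℝ) ^ k := by
  obtain ⟨k, hk⟩ := pow_unbounded_of_one_lt a (by norm_num : (1 : ℝ) < 2)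
  exact ⟨k, hk.le⟩

theorem energy_of_local {d q : ℕ} (hd : 2 ≤ d) (X : BConf d q → BConf d q → ℝ)
    (H : LocalEff (hermOf X)) : EnergyEff (hermOf X) := by
  obtain ⟨N, hN⟩ := H
  set h := hermOf X with hh
  obtain ⟨c, hc⟩ : ∃ c : ℝ, c = entrySum h + 1 := ⟨_, rfl⟩
  have hc1 : 1 ≤ c := by
    have : 0 ≤ entrySum h := Finset.sum_nonneg fun _ _ => Finset.sum_nonneg fun _ _ => norm_nonneg _
    linarith
  obtain ⟨k, hk⟩ := pow_bd c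
  obtain ⟨l, hl⟩ := pow_bd ((q : ℝ) + 2)
  refine ⟨(1 + k) * N + l + 3, ?_⟩
  intro η hη hη1
  have h2 : 2 ≤ 2 / η := by rw [le_div_iff₀ hη]; linarith
  have h21 : 1 ≤ 2 / η := by linarith
  have hp2 : ∀ j : ℕ, (2 : ℝ) ^ j ≤ (2 / η) ^ j := fun j => pow_le_pow_left₀ (by norm_num) h2 j
  obtain ⟨ε, hεe⟩ : ∃ ε : ℝ, ε = η / c := ⟨_, rfl⟩
  have hε : 0 < ε := by rw [hεe]; positivity
  have hε1 : ε ≤ 1 := by
    rw [hεe, div_le_one (by linarith)]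
    linarith
  obtain ⟨D, A, hD, hA⟩ := hN ε hε hε1
  have hεp : 2 / ε ≤ (2 / η) ^ (1 + k) := by
    rw [hεe, div_div_eq_mul_div, pow_add, pow_one, mul_comm 2 c, mul_div_assoc, mul_comm]
    exact mul_le_mul_of_nonneg_left (hk.trans (hp2 k)) (by positivity)
  have hpow : (2 / ε) ^ N ≤ (2 / η) ^ ((1 + k) * N) := by
    rw [pow_mul]
    exact pow_le_pow_left₀ (by positivity) hεp N
  have hmono : ∀ i j : ℕ, i ≤ j → (2 / η) ^ i ≤ (2 / η) ^ j := fun i j hij =>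
    pow_le_pow_right₀ h21 hij
  obtain ⟨m, hm⟩ : ∃ m : ℕ, m = ⌈(2 / ε) ^ N⌉₊ + ⌈1 / η⌉₊ + q := ⟨_, rfl⟩
  have hm1 : (1 : ℝ) / η ≤ m := by
    refine (Nat.le_ceil _).trans ?_
    rw [hm]; push_cast
    have : (0 : ℝ) ≤ (⌈(2 / ε) ^ N⌉₊ : ℝ) := Nat.cast_nonneg _
    have : (0 : ℝ) ≤ (q : ℝ) := Nat.cast_nonneg _
    linarith
  have hm2 : (2 / ε) ^ N ≤ (m : ℝ) := by
    refine (Nat.le_ceil _).trans ?_
    rw [hm]; push_cast
    have : (0 : ℝ) ≤ (⌈1 / η⌉₊ : ℝ) := Nat.cast_nonneg _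
    have : (0 : ℝ) ≤ (q : ℝ) := Nat.cast_nonneg _
    linarith
  have hm0 : m ≠ 0 := by
    rintro rfl
    have : (0 : ℝ) < 1 / η := by positivity
    simp only [Nat.cast_zero] at hm1
    linarith
  have hi : NeZero m := ⟨hm0⟩
  have hqm : q ≤ m := by omega
  obtain ⟨hA0, hA1⟩ := hA m hm2
  obtain ⟨Ψ, hΨ, hT⟩ := Pool.Agent.Y932.PE.groundExists d q m (by omega) hqm X
  refine ⟨m, hi, D, fun _ => A, hm1, ?_, ?_, ?_⟩
  · have b1 : (⌈(2 / ε) ^ N⌉₊ : ℝ) ≤ (2 / ε) ^ N + 1 := (Nat.ceil_lt_add_one (by positivity)).le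
    have b2 : (⌈1 / η⌉₊ : ℝ) ≤ 1 / η + 1 := (Nat.ceil_lt_add_one (by positivity)).le
    have b3 : 1 / η ≤ 2 / η := div_le_div_of_nonneg_right (by norm_num) hη.le
    have b4 : (m : ℝ) ≤ (2 / η) ^ ((1 + k) * N) + 2 / η + ((q : ℝ) + 2) := by
      rw [hm]; push_cast; linarith
    have b5 := hmono ((1 + k) * N) ((1 + k) * N + l + 1) (by omega)
    have b6 : 2 / η ≤ (2 / η) ^ ((1 + k) * N + l + 1) := by
      have := hmono 1 ((1 + k) * N + l + 1) (by omega)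
      rwa [pow_one] at this
    have b7 : (q : ℝ) + 2 ≤ (2 / η) ^ ((1 + k) * N + l + 1) :=
      (hl.trans (hp2 l)).trans (hmono l _ (by omega))
    have b8 : (2 / η) ^ ((1 + k) * N + l + 3) = (2 / η) ^ ((1 + k) * N + l + 1) * (2 / η) ^ 2 := by
      rw [← pow_add]
    have b9 : (4 : ℝ) ≤ (2 / η) ^ 2 := by nlinarith
    have b10 : 0 < (2 / η) ^ ((1 + k) * N + l + 1) := by positivity
    rw [b8]
    nlinarith
  · exact (hD.trans hpow).trans (hmono _ _ (by omega))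
  · have h5 := near_of_closeB hqm h A hA0 Ψ hΨ hT ε (hA1 Ψ hΨ hT)
    have h6 : (entrySum h + 1) * ε = η := by
      rw [← hc, hεe]
      field_simp
    rw [h6] at h5
    exact h5

theorem local_of_energy {d q : ℕ} (hd : 2 ≤ d) (hq : 0 < q) (X : BConf d q → BConf d q → ℝ)
    (hX : GenA d q X) (H : EnergyEff (hermOf X)) : LocalEff (hermOf X) := by
  obtain ⟨C, hC1, hC⟩ := pepsE hd hq X hX
  obtain ⟨N, hN⟩ := H
  obtain ⟨k, hk⟩ := pow_bd (C ^ 2)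
  have hCC : C ≤ C ^ 2 := by nlinarith
  refine ⟨k + 2 * ((2 + k) * N + 1) + 4 * ((2 + k) * N), ?_⟩
  intro ε hε hε1
  have h2 : 2 ≤ 2 / ε := by rw [le_div_iff₀ hε]; linarith
  have h21 : 1 ≤ 2 / ε := by linarith
  have hp2 : ∀ j : ℕ, (2 : ℝ) ^ j ≤ (2 / ε) ^ j := fun j => pow_le_pow_left₀ (by norm_num) h2 j
  obtain ⟨η, hηe⟩ : ∃ η : ℝ, η = (ε / C) ^ 2 := ⟨_, rfl⟩
  have hC0 : 0 < C := by linarith
  have hη : 0 < η := by rw [hηe]; positivity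
  have hεC : ε / C ≤ 1 := by rw [div_le_one hC0]; linarith
  have hη1 : η ≤ 1 := by
    rw [hηe]
    exact pow_le_one₀ (by positivity) hεC
  obtain ⟨m, hi, f, P, hm1, hm2, hf, hP⟩ := hN η hη hη1
  have hηi : 1 / η = (C / ε) ^ 2 := by rw [hηe, div_pow, div_pow, one_div_div]
  have hηp : 2 / η ≤ (2 / ε) ^ (2 + k) := by
    have e1 : 2 / η = C ^ 2 * 2 / ε ^ 2 := by
      rw [hηe]
      field_simp
    have e2 : (2 / ε) ^ (2 + k) = (2 / ε) ^ k * 4 / ε ^ 2 := by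
      rw [pow_add]
      ring
    rw [e1, e2, div_le_div_iff_of_pos_right (by positivity)]
    have e3 : C ^ 2 ≤ (2 / ε) ^ k := hk.trans (hp2 k)
    nlinarith [sq_nonneg C]
  have hpow : (2 / η) ^ N ≤ (2 / ε) ^ ((2 + k) * N) := by
    rw [pow_mul]
    exact pow_le_pow_left₀ (by positivity) hηp N
  have hmb : (m : ℝ) ≤ (2 / ε) ^ ((2 + k) * N) := hm2.trans hpow
  have hfb : (f : ℝ) ≤ (2 / ε) ^ ((2 + k) * N) := hf.trans hpow
  obtain ⟨D, A, hD, hA⟩ := hC ε hε hε1 m f (by rw [← hηi]; exact hm1) P X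
    (fun σ τ => by rw [sub_self, abs_zero]; positivity) (by rw [← hηe]; exact hP)
  have hmε : (m : ℝ) / ε ≤ (2 / ε) ^ ((2 + k) * N + 1) := by
    rw [pow_succ]
    have : (m : ℝ) / ε = m * (1 / ε) := by ring
    rw [this]
    refine mul_le_mul hmb ?_ (by positivity) (by positivity)
    exact div_le_div_of_nonneg_right (by norm_num) hε.le
  have hA2 : C * (m / ε) ^ 2 ≤ (2 / ε) ^ (k + 2 * ((2 + k) * N + 1)) := by
    rw [pow_add, mul_comm 2 ((2 + k) * N + 1), pow_mul _ ((2 + k) * N + 1) 2]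
    refine mul_le_mul ((hCC.trans hk).trans (hp2 k)) ?_ (by positivity) (by positivity)
    exact pow_le_pow_left₀ (by positivity) hmε 2
  refine ⟨D, A, ?_, ?_⟩
  · refine hD.trans ?_
    rw [pow_add, mul_comm 4 ((2 + k) * N), pow_mul _ ((2 + k) * N) 4]
    refine mul_le_mul hA2 ?_ (by positivity) (by positivity)
    exact pow_le_pow_left₀ (Nat.cast_nonneg _) hfb 4
  · intro L _ hL
    have hL2 : C * (m / ε) ^ 2 ≤ (L : ℝ) := by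
      refine (hA2.trans ?_).trans hL
      exact pow_le_pow_right₀ h21 (by omega)
    obtain ⟨hA0, hA1⟩ := hA L hL2
    exact ⟨hA0, fun Ψ hΨ hT => hA1 X (fun σ τ => by rw [sub_self, abs_zero]; positivity) Ψ hT
      (near_ground hΨ (sq_nonneg _))⟩

/-- The unconditional bound. -/
theorem uncond {d q : ℕ} (hd : 2 ≤ d) (hq : 0 < q) (X : BConf d q → BConf d q → ℝ)
    (hX : GenA d q X) : ∃ C : ℝ, 1 ≤ C ∧ ∀ ε : ℝ, 0 < ε → ε ≤ 1 →
    ∃ (D : ℕ) (A : Tensor d D), (D : ℝ) ≤ Real.exp (C / ε) ∧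
      ∀ (L : ℕ) [NeZero L], (C / ε) ^ 4 ≤ (L : ℝ) →
        nrm (pepsX A L) ≠ 0 ∧ ∀ X' : BConf d q → BConf d q → ℝ, (∀ σ τ, |X' σ τ - X σ τ| ≤ ε / C) →
        ∀ Ψ : Conf d L → ℂ, TransInv Ψ → Near (hermOf X') L ((ε / C) ^ 2) Ψ →
          CloseB q Ψ (pepsX A L) ε := by
  obtain ⟨C₀, hC₀q, hbox⟩ := A2.asmA_box therm' pipe' d q hd hq
  obtain ⟨C₁, hC₁, HB⟩ := genB X hX
  have hq0 : (1 : ℝ) ≤ q := by exact_mod_cast hq
  obtain ⟨C, hCe⟩ : ∃ C : ℝ, C = 16 * C₀ + 2 * C₁ + q := ⟨_, rfl⟩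
  have hC1 : 1 ≤ C := by rw [hCe]; linarith
  have hC0 : 0 < C := by linarith
  refine ⟨C, hC1, ?_⟩
  intro ε hε hε1
  obtain ⟨δ, hδe⟩ : ∃ δ : ℝ, δ = ε / C := ⟨_, rfl⟩
  have hδ : 0 < δ := by rw [hδe]; positivity
  have hδ1 : δ ≤ 1 := by
    rw [hδe, div_le_one hC0]
    linarith
  have hδi : 1 / δ ^ 2 = (C / ε) ^ 2 := by rw [hδe, div_pow, div_pow, one_div_div]
  have hCε : C ≤ C / ε := by rw [le_div_iff₀ hε]; nlinarith
  have hCε1 : 1 ≤ C / ε := hC1.trans hCε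
  have hCε2 : C / ε ≤ (C / ε) ^ 2 := by nlinarith
  have hqC : (q : ℝ) ≤ (C / ε) ^ 2 := by
    have h1 : (q : ℝ) ≤ C := by rw [hCe]; linarith
    linarith
  have hnorm : ∀ X' : BConf d q → BConf d q → ℝ, (∀ σ τ, |X' σ τ - X σ τ| ≤ ε / C) →
      ‖X' - X‖ ≤ δ := by
    intro X' hX'
    refine (pi_norm_le_iff_of_nonneg hδ.le).2 fun σ => ?_
    refine (pi_norm_le_iff_of_nonneg hδ.le).2 fun τ => ?_
    rw [hδe]
    exact hX' σ τ
  obtain ⟨N, hN⟩ : ∃ N : ℕ, N = max q ⌈(C / ε) ^ 2⌉₊ + 1 := ⟨_, rfl⟩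
  have hi : NeZero N := ⟨by omega⟩
  have hNr : (C / ε) ^ 2 ≤ (N : ℝ) := by
    refine (Nat.le_ceil _).trans ?_
    exact_mod_cast (le_max_right _ _).trans (by omega : max q ⌈(C / ε) ^ 2⌉₊ ≤ N)
  obtain ⟨Φ, hΦ, hTI⟩ := Pool.Agent.Y932.PE.groundExists d q N (by omega) (by omega) X
  obtain ⟨D, A, hD, hA⟩ := hbox (ε / 2) (by linarith) (by linarith) N (by
    rw [div_div_eq_mul_div]
    refine le_trans ?_ (hCε2.trans hNr)
    refine div_le_div_of_nonneg_right ?_ hε.le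
    rw [hCe]; linarith) Φ hΦ.1 hTI
  refine ⟨D, A, hD.trans (Real.exp_le_exp.2 ?_), ?_⟩
  · rw [div_div_eq_mul_div]
    refine div_le_div_of_nonneg_right ?_ hε.le
    rw [hCe]; linarith
  · intro L _ hL
    have h4 : C₀ / (ε / 2) ^ 4 ≤ (L : ℝ) := by
      refine le_trans ?_ hL
      have e1 : C₀ / (ε / 2) ^ 4 = 16 * C₀ / ε ^ 4 := by
        field_simp
        norm_num
      rw [e1, div_pow]
      refine div_le_div_of_nonneg_right ?_ (by positivity)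
      have h5 : 16 * C₀ ≤ C := by rw [hCe]; linarith
      have h6 : C ≤ C ^ 4 := by
        have : 1 ≤ C ^ 3 := one_le_pow₀ hC1
        nlinarith
      linarith
    obtain ⟨hA0, hA1⟩ := hA L h4
    have hLC : (C / ε) ^ 2 ≤ (L : ℝ) := by
      refine le_trans ?_ hL
      exact pow_le_pow_right₀ hCε1 (by norm_num)
    have hqL : q ≤ L := by exact_mod_cast hqC.trans hLC
    have hclose : CloseB q Φ (pepsX A L) (ε / 2) := by
      intro u v B hBc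
      have h1 := hA1 B hBc v
      rw [transInv_expec Φ hΦ.1 hTI q u B, hΦ.1, norm_sub_rev]
      simpa using h1
    refine ⟨hA0.ne', fun X' hX' Ψ hT hΨ => ?_⟩
    rw [← hδe] at hΨ
    have h5 := HB δ hδ hδ1 X' (hnorm X' hX') N L (by omega) hqL (by rw [hδi]; exact hNr)
      (by rw [hδi]; exact hLC) Φ Ψ hTI hT (near_ground hΦ (sq_nonneg δ)) hΨ
    have h6 : C₁ * δ ≤ ε / 2 := by
      rw [hδe, mul_div_assoc', div_le_div_iff₀ hC0 (by norm_num : (0 : ℝ) < 2)]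
      have : 2 * C₁ ≤ C := by rw [hCe]; linarith
      nlinarith
    exact closeB_mono (closeB_trans (closeB_symm h5) hclose) (by linarith)

/-- Larger constants: the local conclusion. -/
theorem final {d q : ℕ} (hd : 2 ≤ d) (hq : 0 < q) (X : BConf d q → BConf d q → ℝ)
    (hX : GenA d q X) :
    (EnergyEff (hermOf X) ↔ LocalEff (hermOf X)) ∧
    ∃ C : ℝ, 1 ≤ C ∧
    (∀ δ : ℝ, 0 < δ → δ ≤ 1 → ∀ X₁ X₂ : BConf d q → BConf d q → ℝ,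
      (∀ σ τ, |X₁ σ τ - X σ τ| ≤ δ) → (∀ σ τ, |X₂ σ τ - X σ τ| ≤ δ) →
      ∀ (L L' : ℕ) [NeZero L] [NeZero L'], C / δ ^ 2 ≤ (L : ℝ) → C / δ ^ 2 ≤ (L' : ℝ) →
      ∀ (Ψ : Conf d L → ℂ) (Ψ' : Conf d L' → ℂ), TransInv Ψ → TransInv Ψ' →
      Near (hermOf X₁) L (δ ^ 2) Ψ → Near (hermOf X₂) L' (δ ^ 2) Ψ' → CloseB q Ψ Ψ' (C * δ)) ∧
    (∀ ε : ℝ, 0 < ε → ε ≤ 1 → ∀ (m f : ℕ) [NeZero m], (C / ε) ^ 2 ≤ (m : ℝ) →
      ∀ (P : Site m → Tensor d f) (X₁ : BConf d q → BConf d q → ℝ),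
      (∀ σ τ, |X₁ σ τ - X σ τ| ≤ ε / C) → Near (hermOf X₁) m ((ε / C) ^ 2) (pepsN P) →
      ∃ (D : ℕ) (A : Tensor d D), (D : ℝ) ≤ C * (m / ε) ^ 2 * (f : ℝ) ^ 4 ∧
        ∀ (L : ℕ) [NeZero L], C * (m / ε) ^ 2 ≤ (L : ℝ) → nrm (pepsX A L) ≠ 0 ∧
          ∀ X' : BConf d q → BConf d q → ℝ, (∀ σ τ, |X' σ τ - X σ τ| ≤ ε / C) →
          ∀ Ψ : Conf d L → ℂ, TransInv Ψ → Near (hermOf X') L ((ε / C) ^ 2) Ψ →
            CloseB q Ψ (pepsX A L) ε) ∧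
    (∀ ε : ℝ, 0 < ε → ε ≤ 1 → ∃ (D : ℕ) (A : Tensor d D), (D : ℝ) ≤ Real.exp (C / ε) ∧
      ∀ (L : ℕ) [NeZero L], (C / ε) ^ 4 ≤ (L : ℝ) → nrm (pepsX A L) ≠ 0 ∧
        ∀ X' : BConf d q → BConf d q → ℝ, (∀ σ τ, |X' σ τ - X σ τ| ≤ ε / C) →
        ∀ Ψ : Conf d L → ℂ, TransInv Ψ → Near (hermOf X') L ((ε / C) ^ 2) Ψ →
          CloseB q Ψ (pepsX A L) ε) := by
  refine ⟨⟨local_of_energy hd hq X hX, energy_of_local hd X⟩, ?_⟩
  obtain ⟨C₁, hC₁, H1⟩ := genB X hX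
  obtain ⟨C₂, hC₂, H2⟩ := pepsE hd hq X hX
  obtain ⟨C₃, hC₃, H3⟩ := uncond hd hq X hX
  have hq0 : (0 : ℝ) ≤ q := Nat.cast_nonneg q
  obtain ⟨C, hCe⟩ : ∃ C : ℝ, C = 2 * C₁ + C₂ + C₃ + q := ⟨_, rfl⟩
  have hC0 : 0 < C := by rw [hCe]; linarith
  have hC20 : 0 < C₂ := by linarith
  have hC30 : 0 < C₃ := by linarith
  have hC2 : C₂ ≤ C := by rw [hCe]; linarith
  have hC3 : C₃ ≤ C := by rw [hCe]; linarith
  refine ⟨C, by linarith, ?_, ?_, ?_⟩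
  · intro δ hδ hδ1 X₁ X₂ hX₁ hX₂ L L' _ _ hL hL' Ψ Ψ' hT hT' hΨ hΨ'
    have hnorm : ∀ X' : BConf d q → BConf d q → ℝ, (∀ σ τ, |X' σ τ - X σ τ| ≤ δ) →
        ‖X' - X‖ ≤ δ := by
      intro X' hX'
      refine (pi_norm_le_iff_of_nonneg hδ.le).2 fun σ => ?_
      exact (pi_norm_le_iff_of_nonneg hδ.le).2 fun τ => hX' σ τ
    have hδ2 : 0 < δ ^ 2 := by positivity
    have hδ21 : δ ^ 2 ≤ 1 := pow_le_one₀ hδ.le hδ1
    have hsz : ∀ M : ℕ, C / δ ^ 2 ≤ (M : ℝ) → q ≤ M ∧ 1 / δ ^ 2 ≤ (M : ℝ) := by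
      intro M hM
      have h1 : 1 / δ ^ 2 ≤ C / δ ^ 2 := div_le_div_of_nonneg_right (by linarith) hδ2.le
      have h2 : (q : ℝ) ≤ C / δ ^ 2 := by
        rw [le_div_iff₀ hδ2]
        have : (q : ℝ) * δ ^ 2 ≤ q * 1 := mul_le_mul_of_nonneg_left hδ21 hq0
        rw [hCe]; linarith
      exact ⟨by exact_mod_cast h2.trans hM, h1.trans hM⟩
    obtain ⟨s1, s2⟩ := hsz L hL
    obtain ⟨s3, s4⟩ := hsz L' hL'
    obtain ⟨Φ, hΦ, hTI⟩ := Pool.Agent.Y932.PE.groundExists d q L (by omega) s1 X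
    have k1 := H1 δ hδ hδ1 X₁ (hnorm X₁ hX₁) L L s1 s1 s2 s2 Φ Ψ hTI hT
      (near_ground hΦ (sq_nonneg δ)) hΨ
    have k2 := H1 δ hδ hδ1 X₂ (hnorm X₂ hX₂) L L' s1 s3 s2 s4 Φ Ψ' hTI hT'
      (near_ground hΦ (sq_nonneg δ)) hΨ'
    refine closeB_mono (closeB_trans (closeB_symm k1) k2) ?_
    have : 2 * C₁ ≤ C := by rw [hCe]; linarith
    nlinarith
  · intro ε hε hε1 m f _ hm P X₁ hX₁ hP
    have e1 : ε / C ≤ ε / C₂ := div_le_div_of_nonneg_left hε.le hC20 hC2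
    have e2 : (ε / C) ^ 2 ≤ (ε / C₂) ^ 2 := pow_le_pow_left₀ (by positivity) e1 2
    have e3 : (C₂ / ε) ^ 2 ≤ (C / ε) ^ 2 :=
      pow_le_pow_left₀ (by positivity) (div_le_div_of_nonneg_right hC2 hε.le) 2
    obtain ⟨D, A, hD, hA⟩ := H2 ε hε hε1 m f (e3.trans hm) P X₁ (fun σ τ => (hX₁ σ τ).trans e1)
      (near_mono hP e2)
    refine ⟨D, A, hD.trans ?_, ?_⟩
    · refine mul_le_mul_of_nonneg_right (mul_le_mul_of_nonneg_right hC2 (by positivity))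
        (by positivity)
    · intro L _ hL
      obtain ⟨k1, k2⟩ := hA L ((mul_le_mul_of_nonneg_right hC2 (by positivity)).trans hL)
      exact ⟨k1, fun X' hX' Ψ hT hΨ => k2 X' (fun σ τ => (hX' σ τ).trans e1) Ψ hT
        (near_mono hΨ e2)⟩
  · intro ε hε hε1
    have e1 : ε / C ≤ ε / C₃ := div_le_div_of_nonneg_left hε.le hC30 hC3
    have e2 : (ε / C) ^ 2 ≤ (ε / C₃) ^ 2 := pow_le_pow_left₀ (by positivity) e1 2
    have e3 : (C₃ / ε) ^ 4 ≤ (C / ε) ^ 4 :=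
      pow_le_pow_left₀ (by positivity) (div_le_div_of_nonneg_right hC3 hε.le) 4
    obtain ⟨D, A, hD, hA⟩ := H3 ε hε hε1
    refine ⟨D, A, hD.trans (Real.exp_le_exp.2 (div_le_div_of_nonneg_right hC3 hε.le)), ?_⟩
    intro L _ hL
    obtain ⟨k1, k2⟩ := hA L (e3.trans hL)
    exact ⟨k1, fun X' hX' Ψ hT hΨ => k2 X' (fun σ τ => (hX' σ τ).trans e1) Ψ hT
      (near_mono hΨ e2)⟩

end Pool.Agent.Zk71.AX
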