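import Mathlib

/-! # A second order bound for concave functions at almost every point -/

set_option autoImplicit false

open scoped Topology

noncomputable section

namespace Pool.Agent.Zk71.AX

/-- On a line. -/
theorem line (ψ : ℝ → ℝ) (hψ : ConvexOn ℝ Set.univ ψ) (c : ℝ)
    (hc : ∀ x y, |ψ x - ψ y| ≤ c * |x - y|) :
    ∀ᵐ s : ℝ, ∃ K : ℝ, ∀ t : ℝ, 0 ≤ t → t ≤ 1 → ψ (s + t) + ψ (s - t) - 2 * ψ s ≤ K * t ^ 2 := by
  set r : ℝ → ℝ := fun x => derivWithin ψ (Set.Ioi x) x with hr
  have hmono : Monotone r := by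
    have := hψ.monotoneOn_rightDeriv
    rw [interior_univ] at this
    exact fun x y hxy => this (Set.mem_univ x) (Set.mem_univ y) hxy
  have hint : ∀ x : ℝ, x ∈ interior (Set.univ : Set ℝ) := by
    intro x; rw [interior_univ]; exact Set.mem_univ x
  have hc0 : 0 ≤ c := by
    have := (abs_nonneg _).trans (hc 1 0)
    simpa using this
  filter_upwards [hmono.ae_differentiableAt] with s hs
  obtain ⟨k, hk0, hk⟩ := hs.isBigO_sub.exists_nonneg
  obtain ⟨δ, hδ, hk⟩ := Metric.eventually_nhds_iff.1 hk.bound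
  refine ⟨2 * k + 2 * c / δ, fun t ht ht1 => ?_⟩
  have hcδ : 0 ≤ 2 * c / δ := by positivity
  rcases ht.eq_or_lt with h0 | h0
  · subst h0
    simp only [add_zero, sub_zero]
    nlinarith
  · by_cases htδ : t < δ
    · have h1 : ψ (s + t) - ψ s ≤ t * r (s + t) := by
        have e1 := hψ.slope_le_leftDeriv_of_mem_interior (Set.mem_univ s) (hint (s + t))
          (by linarith : s < s + t)
        have e2 := hψ.leftDeriv_le_rightDeriv_of_mem_interior (hint (s + t))
        have e3 := e1.trans e2
        rw [slope_def_field, add_sub_cancel_left, div_le_iff₀ h0] at e3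
        linarith
      have h2 : t * r (s - t) ≤ ψ s - ψ (s - t) := by
        have e1 := hψ.rightDeriv_le_slope_of_mem_interior (hint (s - t)) (Set.mem_univ s)
          (by linarith : s - t < s)
        rw [slope_def_field, sub_sub_cancel, le_div_iff₀ h0] at e1
        linarith
      have h3 := hk (y := s + t) (by rw [Real.dist_eq, add_sub_cancel_left, abs_of_pos h0]; exact htδ)
      have h4 := hk (y := s - t) (by
        rw [Real.dist_eq, sub_sub_cancel_left, abs_neg, abs_of_pos h0]; exact htδ)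
      rw [add_sub_cancel_left, Real.norm_eq_abs, Real.norm_eq_abs, abs_of_pos h0] at h3
      rw [sub_sub_cancel_left, Real.norm_eq_abs, Real.norm_eq_abs, abs_neg, abs_of_pos h0] at h4
      have h5 := (abs_le.1 h3).2
      have h6 := (abs_le.1 h4).1
      have h7 : r (s + t) - r (s - t) ≤ 2 * k * t := by linarith
      have h8 : t * (r (s + t) - r (s - t)) ≤ t * (2 * k * t) := mul_le_mul_of_nonneg_left h7 h0.le
      have h9 : 0 ≤ 2 * c / δ * t ^ 2 := by positivity
      nlinarith
    · push Not at htδ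
      have h1 := (abs_le.1 (hc (s + t) s)).2
      have h2 := (abs_le.1 (hc (s - t) s)).2
      rw [add_sub_cancel_left, abs_of_pos h0] at h1
      rw [sub_sub_cancel_left, abs_neg, abs_of_pos h0] at h2
      have h3 : 2 * c * t ≤ 2 * c / δ * t ^ 2 := by
        have e1 : 2 * c / δ * t ^ 2 = 2 * c * t * (t / δ) := by field_simp
        rw [e1]
        have e2 : 1 ≤ t / δ := by rw [one_le_div hδ]; exact htδ
        have e3 : 0 ≤ 2 * c * t := by positivity
        nlinarith
      have h4 : 0 ≤ 2 * k * t ^ 2 := by positivity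
      nlinarith

theorem second_order {E : Type*} [NormedAddCommGroup E] [NormedSpace ℝ E] [FiniteDimensional ℝ E]
    [MeasurableSpace E] [BorelSpace E] (μ : MeasureTheory.Measure E) [μ.IsAddHaarMeasure]
    (F : E → ℝ) (C : NNReal) (hF : LipschitzWith C F) (hcon : ConcaveOn ℝ Set.univ F) (e : E) :
    ∀ᵐ X ∂μ, ∃ K : ℝ, ∀ t : ℝ, 0 ≤ t → t ≤ 1 →
      2 * F X - F (X + t • e) - F (X - t • e) ≤ K * t ^ 2 := by
  set S : Set E := {X | ∃ K : ℝ, ∀ t : ℝ, 0 ≤ t → t ≤ 1 →
      2 * F X - F (X + t • e) - F (X - t • e) ≤ K * t ^ 2} with hS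
  have hS' : S = ⋃ n : ℕ, {X | ∀ t : ℝ, 0 ≤ t → t ≤ 1 →
      2 * F X - F (X + t • e) - F (X - t • e) ≤ n * t ^ 2} := by
    ext X
    simp only [hS, Set.mem_setOf_eq, Set.mem_iUnion]
    constructor
    · rintro ⟨K, hK⟩
      obtain ⟨n, hn⟩ := exists_nat_ge K
      exact ⟨n, fun t h0 h1 => (hK t h0 h1).trans (mul_le_mul_of_nonneg_right hn (sq_nonneg t))⟩
    · rintro ⟨n, hn⟩
      exact ⟨n, hn⟩
  have hmeas : MeasurableSet S := by
    rw [hS']
    refine MeasurableSet.iUnion fun n => IsClosed.measurableSet ?_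
    simp only [Set.setOf_forall]
    refine isClosed_iInter fun t => isClosed_iInter fun _ => isClosed_iInter fun _ => ?_
    have hFc := hF.continuous
    exact isClosed_le (by fun_prop) continuous_const
  let L : ℝ →L[ℝ] E := ContinuousLinearMap.smulRight (1 : ℝ →L[ℝ] ℝ) e
  refine MeasureTheory.ae_mem_of_ae_add_linearMap_mem L.toLinearMap MeasureTheory.volume μ
    hmeas fun p => ?_
  have hconv : ConvexOn ℝ Set.univ (fun s : ℝ => -F (p + s • e)) := by
    refine ⟨convex_univ, fun x _ y _ a b ha hb hab => ?_⟩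
    have h1 := hcon.2 (Set.mem_univ (p + x • e)) (Set.mem_univ (p + y • e)) ha hb hab
    have h2 : a • (p + x • e) + b • (p + y • e) = p + (a • x + b • y) • e := by
      have hb' : b = 1 - a := by linarith
      subst hb'
      simp only [smul_eq_mul]
      module
    rw [h2] at h1
    simp only [smul_eq_mul] at h1 ⊢
    linarith
  have hlip : ∀ x y : ℝ, |(-F (p + x • e)) - (-F (p + y • e))| ≤ (C * ‖e‖) * |x - y| := by
    intro x y
    have h1 := hF.dist_le_mul (p + y • e) (p + x • e)
    rw [Real.dist_eq, dist_eq_norm] at h1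
    have e1 : p + y • e - (p + x • e) = (y - x) • e := by module
    rw [e1, norm_smul, Real.norm_eq_abs, abs_sub_comm y x] at h1
    have e2 : (-F (p + x • e)) - (-F (p + y • e)) = F (p + y • e) - F (p + x • e) := by ring
    rw [e2]
    linarith
  filter_upwards [line _ hconv _ hlip] with s hs
  obtain ⟨K, hK⟩ := hs
  refine ⟨K, fun t h0 h1 => ?_⟩
  have h2 := hK t h0 h1
  have e1 : p + L.toLinearMap s = p + s • e := by simp [L]
  rw [e1]
  have e2 : p + (s + t) • e = p + s • e + t • e := by module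
  have e3 : p + (s - t) • e = p + s • e - t • e := by module
  rw [e2, e3] at h2
  linarith

end Pool.Agent.Zk71.AX
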