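import Pool.Agent.Zk71.AX.Asm
import Pool.Agent.Zk71.AX.Sec
import Pool.Agent.Zk71.PE.Fin

/-! # Almost every interaction -/

set_option autoImplicit false
set_option linter.unusedSectionVars false

open scoped BigOperators ComplexConjugate Topology

noncomputable section

namespace Pool.Agent.Zk71.AX

open Pool.Agent.Y738.PE

theorem ae_gen (d q : ℕ) (hd : 2 ≤ d) (hq : 0 < q) :
    ∀ᵐ X : BConf d q → BConf d q → ℝ, Gen d q X := by
  obtain ⟨F, C, C₀, hL, hcon, hC₀, hF⟩ := rate d q hd hq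
  have h1 : ∀ᵐ X : BConf d q → BConf d q → ℝ, ∀ σ τ : BConf d q, ∃ K : ℝ, ∀ t : ℝ, 0 ≤ t → t ≤ 1 →
      2 * F X - F (X + t • sg σ τ) - F (X - t • sg σ τ) ≤ K * t ^ 2 := by
    rw [MeasureTheory.ae_all_iff]
    intro σ
    rw [MeasureTheory.ae_all_iff]
    intro τ
    exact second_order MeasureTheory.volume F C hL hcon (sg σ τ)
  filter_upwards [h1] with X hX
  choose K hK using hX
  refine nearClose hd hq F C₀ hC₀ hF X (∑ σ, ∑ τ, |K σ τ|) ?_
  intro σ τ t h0 h1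
  refine (hK σ τ t h0 h1).trans (mul_le_mul_of_nonneg_right ?_ (sq_nonneg t))
  calc K σ τ ≤ |K σ τ| := le_abs_self _
    _ ≤ ∑ τ, |K σ τ| := Finset.single_le_sum (f := fun τ => |K σ τ|) (fun _ _ => abs_nonneg _)
        (Finset.mem_univ τ)
    _ ≤ ∑ σ, ∑ τ, |K σ τ| := Finset.single_le_sum (f := fun σ => ∑ τ, |K σ τ|)
        (fun _ _ => Finset.sum_nonneg fun _ _ => abs_nonneg _) (Finset.mem_univ σ)

end Pool.Agent.Zk71.AX
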