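import Pool.Agent.Zk71.AX.Mar

/-! # Lipschitz dependence of marginals on the interaction -/

set_option autoImplicit false
set_option linter.unusedSectionVars false

open scoped BigOperators ComplexConjugate Topology

noncomputable section

namespace Pool.Agent.Zk71.AX

open Pool.Agent.Y738.PE

/-- one coordinate direction -/
theorem low1 {E : Type*} [NormedAddCommGroup E] [NormedSpace ℝ E] (F : E → ℝ) (X e : E)
    (he : ‖e‖ ≤ 1) (K : ℝ)
    (hX : ∀ t : ℝ, 0 ≤ t → t ≤ 1 → 2 * F X - F (X + t • e) - F (X - t • e) ≤ K * t ^ 2)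
    (ρ : E →ₗ[ℝ] ℝ) (c : ℝ) (hρ : ∀ Z, ‖Z - X‖ ≤ 2 → F Z ≤ F X + c + ρ (Z - X)) (s : ℝ)
    (hs : |s| ≤ 1) : F X - c + s * ρ e - K * s ^ 2 ≤ F (X + s • e) := by
  have hse : ∀ t : ℝ, |t| ≤ 1 → ‖t • e‖ ≤ 2 := by
    intro t ht
    rw [norm_smul, Real.norm_eq_abs]
    nlinarith [abs_nonneg t, norm_nonneg e]
  rcases le_total 0 s with h0 | h0
  · have h1 := hX s h0 ((le_abs_self s).trans hs)
    have h2 := hρ (X - s • e) (by
      rw [sub_sub_cancel_left, norm_neg]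
      exact hse s hs)
    rw [sub_sub_cancel_left, map_neg, map_smul, smul_eq_mul] at h2
    linarith
  · have h1 := hX (-s) (by linarith) ((neg_le_abs s).trans hs)
    have h2 := hρ (X - s • e) (by
      rw [sub_sub_cancel_left, norm_neg]
      exact hse s hs)
    rw [sub_sub_cancel_left, map_neg, map_smul, smul_eq_mul] at h2
    have e1 : X + -s • e = X - s • e := by module
    have e2 : X - -s • e = X + s • e := by module
    rw [e1, e2, neg_sq] at h1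
    linarith

/-- The second order lower bound in a ball. -/
theorem low {d q : ℕ} (F : (BConf d q → BConf d q → ℝ) → ℝ) (hcon : ConcaveOn ℝ Set.univ F)
    (X : BConf d q → BConf d q → ℝ) (K : ℝ) (hK : 0 ≤ K)
    (hX : ∀ (σ τ : BConf d q) (t : ℝ), 0 ≤ t → t ≤ 1 →
      2 * F X - F (X + t • sg σ τ) - F (X - t • sg σ τ) ≤ K * t ^ 2)
    (ρ : (BConf d q → BConf d q → ℝ) →ₗ[ℝ] ℝ) (c : ℝ)
    (hρ : ∀ Z, ‖Z - X‖ ≤ 2 → F Z ≤ F X + c + ρ (Z - X)) (N : ℝ)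
    (hN : N = (Fintype.card (BConf d q × BConf d q) : ℝ)) (hN0 : 0 < N)
    (V : BConf d q → BConf d q → ℝ) (hV : N * ‖V‖ ≤ 1) :
    F X - c + ρ V - K * (N * ‖V‖) ^ 2 ≤ F (X + V) := by
  have hVe : ∀ σ τ, |V σ τ| ≤ ‖V‖ := fun σ τ =>
    (norm_le_pi_norm (V σ) τ).trans (norm_le_pi_norm V σ)
  have hNV : ∀ σ τ, |N * V σ τ| ≤ N * ‖V‖ := by
    intro σ τ
    rw [abs_mul, abs_of_pos hN0]
    exact mul_le_mul_of_nonneg_left (hVe σ τ) hN0.le
  have h1 : ∀ p : BConf d q × BConf d q,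
      F X - c + (N * V p.1 p.2) * ρ (sg p.1 p.2) - K * (N * V p.1 p.2) ^ 2 ≤
        F (X + (N * V p.1 p.2) • sg p.1 p.2) := fun p =>
    low1 F X (sg p.1 p.2) (sg_norm _ _) K (hX p.1 p.2) ρ c hρ _ ((hNV _ _).trans hV)
  have hJ := hcon.le_map_sum (t := (Finset.univ : Finset (BConf d q × BConf d q)))
    (w := fun _ => N⁻¹) (p := fun p => X + (N * V p.1 p.2) • sg p.1 p.2)
    (fun _ _ => (inv_pos.2 hN0).le)
    (by rw [Finset.sum_const, Finset.card_univ, nsmul_eq_mul, ← hN, mul_inv_cancel₀ hN0.ne'])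
    (fun _ _ => Set.mem_univ _)
  have e1 : ∑ p : BConf d q × BConf d q, N⁻¹ • (X + (N * V p.1 p.2) • sg p.1 p.2) = X + V := by
    have k1 : ∀ p : BConf d q × BConf d q, N⁻¹ • (X + (N * V p.1 p.2) • sg p.1 p.2) =
        N⁻¹ • X + V p.1 p.2 • sg p.1 p.2 := by
      intro p
      rw [smul_add, smul_smul, ← mul_assoc, inv_mul_cancel₀ hN0.ne', one_mul]
    rw [Finset.sum_congr rfl fun p _ => k1 p, Finset.sum_add_distrib, Finset.sum_const,
      Finset.card_univ, Fintype.sum_prod_type, ← sg_sum V, ← Nat.cast_smul_eq_nsmul ℝ, ← hN,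
      smul_smul, mul_inv_cancel₀ hN0.ne', one_smul]
  rw [e1] at hJ
  refine le_trans ?_ hJ
  have h2 : ∑ p : BConf d q × BConf d q, N⁻¹ *
      (F X - c + (N * V p.1 p.2) * ρ (sg p.1 p.2) - K * (N * ‖V‖) ^ 2) =
      F X - c + ρ V - K * (N * ‖V‖) ^ 2 := by
    have k1 : ∀ p : BConf d q × BConf d q, N⁻¹ *
        (F X - c + (N * V p.1 p.2) * ρ (sg p.1 p.2) - K * (N * ‖V‖) ^ 2) =
        N⁻¹ * (F X - c - K * (N * ‖V‖) ^ 2) + V p.1 p.2 * ρ (sg p.1 p.2) := by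
      intro p
      field_simp
      ring
    rw [Finset.sum_congr rfl fun p _ => k1 p, Finset.sum_add_distrib, Finset.sum_const,
      Finset.card_univ, nsmul_eq_mul, ← hN, ← mul_assoc, mul_inv_cancel₀ hN0.ne', one_mul]
    have k2 : ρ V = ∑ p : BConf d q × BConf d q, V p.1 p.2 * ρ (sg p.1 p.2) := by
      conv_lhs => rw [sg_sum V]
      rw [Fintype.sum_prod_type]
      simp only [map_sum, map_smul, smul_eq_mul]
    rw [← k2]
    ring
  rw [← h2]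
  refine Finset.sum_le_sum fun p _ => ?_
  rw [smul_eq_mul]
  refine mul_le_mul_of_nonneg_left ?_ (inv_pos.2 hN0).le
  refine le_trans ?_ (h1 p)
  have h3 : (N * V p.1 p.2) ^ 2 ≤ (N * ‖V‖) ^ 2 := by
    rw [← sq_abs (N * V p.1 p.2)]
    exact pow_le_pow_left₀ (abs_nonneg _) (hNV _ _) 2
  have h4 := mul_le_mul_of_nonneg_left h3 hK
  linarith

/-- Two approximate supergradients at nearby points. -/
theorem lip {d q : ℕ} (F : (BConf d q → BConf d q → ℝ) → ℝ) (hcon : ConcaveOn ℝ Set.univ F)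
    (X : BConf d q → BConf d q → ℝ) (K : ℝ) (hK : 0 ≤ K)
    (hX : ∀ (σ τ : BConf d q) (t : ℝ), 0 ≤ t → t ≤ 1 →
      2 * F X - F (X + t • sg σ τ) - F (X - t • sg σ τ) ≤ K * t ^ 2) (N : ℝ)
    (hN : N = (Fintype.card (BConf d q × BConf d q) : ℝ)) (hN0 : 0 < N) (δ : ℝ) (hδ : 0 < δ)
    (hδN : 2 * N * δ ≤ 1) (hδ1 : δ ≤ 1) (c : ℝ)
    (ρ ρ' : (BConf d q → BConf d q → ℝ) →ₗ[ℝ] ℝ)
    (hρ : ∀ Z, ‖Z - X‖ ≤ 2 → F Z ≤ F X + c * δ ^ 2 + ρ (Z - X))
    (X' : BConf d q → BConf d q → ℝ) (hXX : ‖X' - X‖ ≤ δ)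
    (hρ' : ∀ Z, ‖Z - X‖ ≤ 2 → F Z ≤ F X' + c * δ ^ 2 + ρ' (Z - X'))
    (W : BConf d q → BConf d q → ℝ) (hW : ‖W‖ ≤ 1) :
    ρ' W - ρ W ≤ (3 * c + 4 * K * N ^ 2) * δ := by
  have hV : ‖(X' - X) - δ • W‖ ≤ 2 * δ := by
    refine (norm_sub_le _ _).trans ?_
    rw [norm_smul, Real.norm_of_nonneg hδ.le]
    nlinarith
  have h1 := low F hcon X K hK hX ρ (c * δ ^ 2) hρ N hN hN0 ((X' - X) - δ • W) (by
    calc N * ‖(X' - X) - δ • W‖ ≤ N * (2 * δ) := mul_le_mul_of_nonneg_left hV hN0.le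
      _ ≤ 1 := by linarith)
  have e1 : X + ((X' - X) - δ • W) = X' - δ • W := by module
  rw [e1] at h1
  have h2 := hρ' (X' - δ • W) (by
    have : X' - δ • W - X = (X' - X) - δ • W := by module
    rw [this]
    linarith)
  have h3 := hρ X' (by linarith)
  rw [sub_sub_cancel_left, map_neg, map_smul, smul_eq_mul] at h2
  rw [map_sub ρ (X' - X), map_smul, smul_eq_mul] at h1
  have h4 : K * (N * ‖(X' - X) - δ • W‖) ^ 2 ≤ K * (N * (2 * δ)) ^ 2 := by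
    refine mul_le_mul_of_nonneg_left (pow_le_pow_left₀ (by positivity)
      (mul_le_mul_of_nonneg_left hV hN0.le) 2) hK
  have h5 : δ * (ρ' W - ρ W) ≤ δ * ((3 * c + 4 * K * N ^ 2) * δ) := by
    nlinarith
  exact le_of_mul_le_mul_left h5 hδ

end Pool.Agent.Zk71.AX
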