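import Pool.Agent.Zk71.AX.Lip
import Pool.Agent.Zk71.AX.Asm
import Pool.Agent.Zk71.AX.Sec

/-! # Lipschitz dependence of marginals on the interaction, for almost every interaction -/

set_option autoImplicit false
set_option linter.unusedSectionVars false

open scoped BigOperators ComplexConjugate Topology

noncomputable section

namespace Pool.Agent.Zk71.AX

open Pool.Agent.Y738.PE

/-- All translation invariant vectors of energy density within `δ²` of the minimum, for interactions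
within `δ`, on tori of side at least `1 / δ²`, have reduced density matrices within `C δ`. -/
def GenL (d q : ℕ) (X : BConf d q → BConf d q → ℝ) : Prop :=
  ∃ C : ℝ, 0 < C ∧ ∀ δ : ℝ, 0 < δ → δ ≤ 1 → ∀ X' : BConf d q → BConf d q → ℝ, ‖X' - X‖ ≤ δ →
    ∀ (L L' : ℕ) [NeZero L] [NeZero L'],
    q ≤ L → q ≤ L' → 1 / δ ^ 2 ≤ (L : ℝ) → 1 / δ ^ 2 ≤ (L' : ℝ) →
    ∀ (Ψ : Conf d L → ℂ) (Ψ' : Conf d L' → ℂ), TransInv Ψ → TransInv Ψ' →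
    Near (hermOf X) L (δ ^ 2) Ψ → Near (hermOf X') L' (δ ^ 2) Ψ' → ∀ R, InBox q R →
      Close R Ψ Ψ' (C * δ)

/-- A state of low energy density gives an approximate supergradient. -/
theorem superg {d q : ℕ} (hd : 2 ≤ d) (F : (BConf d q → BConf d q → ℝ) → ℝ) (C₀ : ℝ)
    (hC₀ : 0 ≤ C₀) (hF : ∀ L : ℕ, q ≤ L → ∀ X, |gd L X - F X| ≤ C₀ * (1 + ‖X‖) / L)
    (X X' : BConf d q → BConf d q → ℝ) (δ : ℝ) (hδ : 0 < δ) (hδ1 : δ ≤ 1) (hXX : ‖X' - X‖ ≤ δ)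
    (M : ℕ) [NeZero M] (hqM : q ≤ M) (hM : 1 / δ ^ 2 ≤ (M : ℝ)) (Φ : Conf d M → ℂ)
    (hT : TransInv Φ) (hΦ : Near (hermOf X') M (δ ^ 2) Φ) (Z : BConf d q → BConf d q → ℝ)
    (hZ : ‖Z - X‖ ≤ 2) :
    F Z ≤ F X' + (C₀ * (2 + ‖X‖) + 1 + C₀ * (3 + ‖X‖)) * δ ^ 2 +
      (expec (nz Φ) 0 (hermOf (Z - X'))).re := by
  have hδ2 : 0 < δ ^ 2 := by positivity
  have h0 : 0 < nrm Φ := lt_of_le_of_ne (nrm_nonneg _) (Ne.symm hΦ.1)
  have hM0 : (0 : ℝ) < M := lt_of_lt_of_le (by positivity) hM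
  have hM2 : (0 : ℝ) < (M : ℝ) ^ 2 := by positivity
  have hinv : ∀ a b : ℝ, 0 ≤ a → a ≤ b → a / M ≤ b * δ ^ 2 := by
    intro a b ha hab
    rw [div_eq_mul_inv]
    refine mul_le_mul hab ?_ (by positivity) (ha.trans hab)
    rw [inv_le_comm₀ hM0 hδ2, ← one_div]
    exact hM
  have hnX := norm_nonneg X
  have hX'n : ‖X'‖ ≤ 1 + ‖X‖ := by
    have := norm_add_le (X' - X) X
    rw [sub_add_cancel] at this
    linarith
  have hZn : ‖Z‖ ≤ 2 + ‖X‖ := by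
    have := norm_add_le (Z - X) X
    rw [sub_add_cancel] at this
    linarith
  -- the energy
  obtain ⟨G, hG, -⟩ := Pool.Agent.Y932.PE.groundExists d q M (by omega) hqM X'
  have h1 := hΦ.2 G hG.1
  have h2 := hF M hqM X'
  rw [gd_eq X' G hG] at h2
  have h3 := (abs_le.1 h2).2
  have h4 := hinv (C₀ * (1 + ‖X'‖)) (C₀ * (2 + ‖X‖)) (by have := norm_nonneg X'; positivity)
    (mul_le_mul_of_nonneg_left (by linarith) hC₀)
  have h5 : en (hermOf X') M G / (M : ℝ) ^ 2 ≤ F X' + C₀ * (2 + ‖X‖) * δ ^ 2 := by linarith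
  rw [div_le_iff₀ hM2] at h5
  have h6 : en (hermOf X') M G + δ ^ 2 * (M : ℝ) ^ 2 ≤
      (F X' + (C₀ * (2 + ‖X‖) + 1) * δ ^ 2) * (M : ℝ) ^ 2 := by nlinarith
  have h7 : en (hermOf X') M (nz Φ) ≤ (F X' + (C₀ * (2 + ‖X‖) + 1) * δ ^ 2) * (M : ℝ) ^ 2 := by
    rw [nz_en _ Φ hΦ.1, inv_mul_le_iff₀ h0]
    calc en (hermOf X') M Φ ≤ (en (hermOf X') M G + δ ^ 2 * (M : ℝ) ^ 2) * nrm Φ := h1
      _ ≤ ((F X' + (C₀ * (2 + ‖X‖) + 1) * δ ^ 2) * (M : ℝ) ^ 2) * nrm Φ :=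
          mul_le_mul_of_nonneg_right h6 h0.le
      _ = _ := mul_comm _ _
  have h8 := gd_le Pool.Agent.Y675.PE.energyB Pool.Agent.Y331.PE.t_EnergyA
    Pool.Agent.Y932.PE.groundExists (by omega) hqM X' Z (nz Φ) (nz_nrm Φ hΦ.1)
    (transInv_expec (nz Φ) (nz_nrm Φ hΦ.1) (nz_TI Φ hT) q) _ h7
  have h9 := (abs_le.1 (hF M hqM Z)).1
  have h10 := hinv (C₀ * (1 + ‖Z‖)) (C₀ * (3 + ‖X‖)) (by have := norm_nonneg Z; positivity)
    (mul_le_mul_of_nonneg_left (by linarith) hC₀)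
  linarith

theorem nearCloseL {d q : ℕ} (hd : 2 ≤ d) (F : (BConf d q → BConf d q → ℝ) → ℝ)
    (hcon : ConcaveOn ℝ Set.univ F) (C₀ : ℝ) (hC₀ : 0 ≤ C₀)
    (hF : ∀ L : ℕ, q ≤ L → ∀ X, |gd L X - F X| ≤ C₀ * (1 + ‖X‖) / L)
    (X : BConf d q → BConf d q → ℝ) (K : ℝ) (hK : 0 ≤ K)
    (hX : ∀ (σ τ : BConf d q) (t : ℝ), 0 ≤ t → t ≤ 1 →
      2 * F X - F (X + t • sg σ τ) - F (X - t • sg σ τ) ≤ K * t ^ 2) : GenL d q X := by
  have hA := Pool.Agent.Y331.PE.t_EnergyA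
  have hB := Pool.Agent.Y675.PE.energyB
  have hC := Pool.Agent.Y236.PE.energyC
  have hRI := Pool.Agent.Y759.PE.regionIn
  obtain ⟨N, hN⟩ : ∃ N : ℝ, N = (Fintype.card (BConf d q × BConf d q) : ℝ) := ⟨_, rfl⟩
  have hN0 : 0 < N := by
    have : Nonempty (BConf d q × BConf d q) := ⟨(fun _ => ⟨0, by omega⟩, fun _ => ⟨0, by omega⟩)⟩
    rw [hN]
    exact_mod_cast Fintype.card_pos
  obtain ⟨c, hc⟩ : ∃ c : ℝ, c = C₀ * (2 + ‖X‖) + 1 + C₀ * (3 + ‖X‖) := ⟨_, rfl⟩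
  have hnX := norm_nonneg X
  have hc0 : 0 ≤ c := by rw [hc]; positivity
  obtain ⟨E, hE⟩ : ∃ E : ℝ, E = 4 * (Fintype.card (BConf d q) : ℝ) ^ 2 := ⟨_, rfl⟩
  have hE0 : 0 ≤ E := by rw [hE]; positivity
  obtain ⟨b, hb⟩ : ∃ b : ℝ, b = (3 * c + 4 * K * N ^ 2) + 4 * N * E := ⟨_, rfl⟩
  have hb0 : 0 ≤ b := by rw [hb]; positivity
  refine ⟨2 * b + 1, by positivity, ?_⟩
  intro δ hδ hδ1 X' hXX L L' _ _ hqL hqL' hL hL' Ψ Ψ' hT hT' hΨ hΨ' R hR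
  have n1 := nz_nrm Ψ hΨ.1
  have n2 := nz_nrm Ψ' hΨ'.1
  obtain ⟨ρ, hρ⟩ := exists_rho (q := q) hB (nz Ψ)
  obtain ⟨ρ', hρ'⟩ := exists_rho (q := q) hB (nz Ψ')
  have s1 : ∀ Z, ‖Z - X‖ ≤ 2 → F Z ≤ F X + c * δ ^ 2 + ρ (Z - X) := by
    intro Z hZ
    rw [hρ, hc]
    exact superg hd F C₀ hC₀ hF X X δ hδ hδ1 (by rw [sub_self, norm_zero]; exact hδ.le) L hqL hL
      Ψ hT hΨ Z hZ
  have s2 : ∀ Z, ‖Z - X‖ ≤ 2 → F Z ≤ F X' + c * δ ^ 2 + ρ' (Z - X') := by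
    intro Z hZ
    rw [hρ', hc]
    exact superg hd F C₀ hC₀ hF X X' δ hδ hδ1 hXX L' hqL' hL' Ψ' hT' hΨ' Z hZ
  have triv : ∀ (M : ℕ) [NeZero M], q ≤ M → ∀ Φ : Conf d M → ℂ, nrm Φ = 1 →
      ∀ W : BConf d q → BConf d q → ℝ, ‖W‖ ≤ 1 → |(expec Φ 0 (hermOf W)).re| ≤ E := by
    intro M _ hqM Φ hΦ W hW
    have k1 := hA.2.1 d q M hqM (hermOf W) Φ 0
    rw [hΦ, mul_one] at k1
    have k2 := hC.1 d q W
    have k3 := Complex.abs_re_le_norm (expec Φ 0 (hermOf W))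
    rw [← hE] at k2
    nlinarith [norm_nonneg W]
  have key : ∀ W : BConf d q → BConf d q → ℝ, ‖W‖ ≤ 1 → ρ' W - ρ W ≤ b * δ := by
    intro W hW
    by_cases hδN : 2 * N * δ ≤ 1
    · have h1 := lip F hcon X K hK hX N hN hN0 δ hδ hδN hδ1 c ρ ρ' s1 X' hXX s2 W hW
      refine h1.trans (mul_le_mul_of_nonneg_right ?_ hδ.le)
      rw [hb]
      have : 0 ≤ 4 * N * E := by positivity
      linarith
    · push Not at hδN
      have k1 := triv L hqL (nz Ψ) n1 W hW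
      have k2 := triv L' hqL' (nz Ψ') n2 W hW
      rw [← hρ] at k1
      rw [← hρ'] at k2
      have k3 := (abs_le.1 k1).1
      have k4 := (abs_le.1 k2).2
      have k5 : 2 * E ≤ 4 * N * E * δ := by nlinarith
      have k6 : 0 ≤ (3 * c + 4 * K * N ^ 2) * δ := by positivity
      rw [hb]
      nlinarith
  have key2 : ∀ W : BConf d q → BConf d q → ℝ, ‖W‖ ≤ 1 →
      ‖expec (nz Ψ) 0 (hermOf W) - expec (nz Ψ') 0 (hermOf W)‖ ≤ b * δ := by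
    intro W hW
    have e1 : expec (nz Ψ) 0 (hermOf W) = ((ρ W : ℝ) : ℂ) := by
      rw [hρ]
      refine Complex.ext (by rw [Complex.ofReal_re]) ?_
      rw [hB.2.2 d q L hqL W (nz Ψ) 0, Complex.ofReal_im]
    have e2 : expec (nz Ψ') 0 (hermOf W) = ((ρ' W : ℝ) : ℂ) := by
      rw [hρ']
      refine Complex.ext (by rw [Complex.ofReal_re]) ?_
      rw [hB.2.2 d q L' hqL' W (nz Ψ') 0, Complex.ofReal_im]
    rw [e1, e2, ← Complex.ofReal_sub, Complex.norm_real, Real.norm_eq_abs, abs_le]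
    have k1 := key W hW
    have k2 := key (-W) (by rw [norm_neg]; exact hW)
    rw [map_neg, map_neg] at k2
    constructor <;> linarith
  have main : ∀ B : BConf d q → BConf d q → ℂ, Contr B →
      ‖expec (nz Ψ) 0 B - expec (nz Ψ') 0 B‖ ≤ (2 * b + 1) * δ := by
    intro B hBc
    obtain ⟨Y, Z, hY, hZ, hYZ⟩ := hC.2 d q B hBc
    rw [expec_decomp (nz Ψ) 0 B _ _ hYZ, expec_decomp (nz Ψ') 0 B _ _ hYZ]
    have a1 := key2 Y hY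
    have a2 := key2 Z hZ
    have e : expec (nz Ψ) 0 (hermOf Y) + Complex.I * expec (nz Ψ) 0 (hermOf Z) -
        (expec (nz Ψ') 0 (hermOf Y) + Complex.I * expec (nz Ψ') 0 (hermOf Z)) =
        (expec (nz Ψ) 0 (hermOf Y) - expec (nz Ψ') 0 (hermOf Y)) +
        Complex.I * (expec (nz Ψ) 0 (hermOf Z) - expec (nz Ψ') 0 (hermOf Z)) := by ring
    rw [e]
    refine (norm_add_le _ _).trans ?_
    rw [norm_mul, Complex.norm_I, one_mul]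
    nlinarith
  have t1 := transInv_expec (nz Ψ) n1 (nz_TI Ψ hT) q
  have t2 := transInv_expec (nz Ψ') n2 (nz_TI Ψ' hT') q
  intro v v' B hBc
  obtain ⟨B', hB', hBB⟩ := hRI d q R hR B hBc
  rw [hBB L hqL, hBB L' hqL', ← nz_expec Ψ hΨ.1, ← nz_expec Ψ' hΨ'.1, t1, t2]
  exact main B' hB'

theorem ae_genL (d q : ℕ) (hd : 2 ≤ d) (hq : 0 < q) :
    ∀ᵐ X : BConf d q → BConf d q → ℝ, GenL d q X := by
  obtain ⟨F, C, C₀, hL, hcon, hC₀, hF⟩ := rate d q hd hq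
  have h1 : ∀ᵐ X : BConf d q → BConf d q → ℝ, ∀ σ τ : BConf d q, ∃ K : ℝ, ∀ t : ℝ, 0 ≤ t → t ≤ 1 →
      2 * F X - F (X + t • sg σ τ) - F (X - t • sg σ τ) ≤ K * t ^ 2 := by
    rw [MeasureTheory.ae_all_iff]
    intro σ
    rw [MeasureTheory.ae_all_iff]
    intro τ
    exact second_order MeasureTheory.volume F C hL hcon (sg σ τ)
  filter_upwards [h1] with X hX
  choose K hK using hX
  refine nearCloseL hd F hcon C₀ hC₀ hF X (∑ σ, ∑ τ, |K σ τ|)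
    (Finset.sum_nonneg fun _ _ => Finset.sum_nonneg fun _ _ => abs_nonneg _) ?_
  intro σ τ t h0 h1
  refine (hK σ τ t h0 h1).trans (mul_le_mul_of_nonneg_right ?_ (sq_nonneg t))
  calc K σ τ ≤ |K σ τ| := le_abs_self _
    _ ≤ ∑ τ, |K σ τ| := Finset.single_le_sum (f := fun τ => |K σ τ|) (fun _ _ => abs_nonneg _)
        (Finset.mem_univ τ)
    _ ≤ ∑ σ, ∑ τ, |K σ τ| := Finset.single_le_sum (f := fun σ => ∑ τ, |K σ τ|)
        (fun _ _ => Finset.sum_nonneg fun _ _ => abs_nonneg _) (Finset.mem_univ σ)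

/-- Transfer: one tensor for one large ground state serves all states of low energy density of all
nearby interactions. -/
theorem transferL {d q : ℕ} (hd : 2 ≤ d) (X : BConf d q → BConf d q → ℝ)
    (hX : GenL d q X) : ∃ C : ℝ, 1 ≤ C ∧ ∀ ε : ℝ, 0 < ε → ε ≤ 1 → ∀ R, InBox q R → ∀ D₀ T : ℝ,
    (∃ L₀ : ℕ, ∀ (L : ℕ) [NeZero L], L₀ ≤ L → ∀ Ψ : Conf d L → ℂ, IsGround (hermOf X) L Ψ →
      TransInv Ψ → ∃ (D : ℕ) (A : Tensor d D), (D : ℝ) ≤ D₀ ∧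
        ∀ (L' : ℕ) [NeZero L'], T ≤ (L' : ℝ) →
          nrm (pepsX A L') ≠ 0 ∧ Close R Ψ (pepsX A L') (ε / 2)) →
    ∃ (D : ℕ) (A : Tensor d D), (D : ℝ) ≤ D₀ ∧
      ∀ (L' : ℕ) [NeZero L'], T ≤ (L' : ℝ) → (C / ε) ^ 2 ≤ (L' : ℝ) →
        nrm (pepsX A L') ≠ 0 ∧ ∀ X' : BConf d q → BConf d q → ℝ, (∀ σ τ, |X' σ τ - X σ τ| ≤ ε / C) →
        ∀ Ψ' : Conf d L' → ℂ, TransInv Ψ' →
          Near (hermOf X') L' ((ε / C) ^ 2) Ψ' → Close R Ψ' (pepsX A L') ε := by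
  obtain ⟨C₁, hC₁, H⟩ := hX
  obtain ⟨C, hCe⟩ : ∃ C : ℝ, C = 2 * C₁ + q + 1 := ⟨_, rfl⟩
  have hq0 : (0 : ℝ) ≤ q := Nat.cast_nonneg q
  have hC1 : 1 ≤ C := by rw [hCe]; linarith
  have hC0 : 0 < C := by linarith
  refine ⟨C, hC1, ?_⟩
  intro ε hε hε1 R hR D₀ T ⟨L₀, hL₀⟩
  obtain ⟨δ, hδe⟩ : ∃ δ : ℝ, δ = ε / C := ⟨_, rfl⟩
  have hδ : 0 < δ := by rw [hδe]; positivity
  have hδ1 : δ ≤ 1 := by
    rw [hδe, div_le_one hC0]
    linarith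
  have hδi : 1 / δ ^ 2 = (C / ε) ^ 2 := by rw [hδe, div_pow, div_pow, one_div_div]
  have hqC : (q : ℝ) ≤ (C / ε) ^ 2 := by
    have h1 : (q : ℝ) ≤ C := by rw [hCe]; linarith
    have h2 : C ≤ C / ε := by rw [le_div_iff₀ hε]; nlinarith
    have h3 : C / ε ≤ (C / ε) ^ 2 := by nlinarith
    linarith
  have hsq : C₁ * δ ≤ ε / 2 := by
    rw [hδe, mul_div_assoc', div_le_div_iff₀ hC0 two_pos]
    rw [hCe]
    nlinarith
  obtain ⟨N, hN⟩ : ∃ N : ℕ, N = max (max L₀ q) ⌈(C / ε) ^ 2⌉₊ + 1 := ⟨_, rfl⟩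
  have hi : NeZero N := ⟨by omega⟩
  have hNr : (C / ε) ^ 2 ≤ (N : ℝ) := by
    refine (Nat.le_ceil _).trans ?_
    exact_mod_cast (le_max_right _ _).trans (by omega : max (max L₀ q) ⌈(C / ε) ^ 2⌉₊ ≤ N)
  obtain ⟨Ψ, hΨ, hTI⟩ := Pool.Agent.Y932.PE.groundExists d q N (by omega) (by omega) X
  obtain ⟨D, A, hD, hA⟩ := hL₀ N (by omega) Ψ hΨ hTI
  refine ⟨D, A, hD, ?_⟩
  intro L' _ hT' hL'
  obtain ⟨hA0, hA1⟩ := hA L' hT'
  refine ⟨hA0, fun X' hX' Ψ' hΨT hΨN => ?_⟩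
  rw [← hδe] at hΨN
  have hqL' : q ≤ L' := by exact_mod_cast hqC.trans hL'
  have hXX : ‖X' - X‖ ≤ δ := by
    refine (pi_norm_le_iff_of_nonneg hδ.le).2 fun σ => ?_
    refine (pi_norm_le_iff_of_nonneg hδ.le).2 fun τ => ?_
    rw [hδe]
    exact hX' σ τ
  have h1 := H δ hδ hδ1 X' hXX N L' (by omega) hqL' (by rw [hδi]; exact hNr)
    (by rw [hδi]; exact hL') Ψ Ψ' hTI hΨT (near_ground hΨ (sq_nonneg δ)) hΨN R hR
  exact close_mono (close_trans (close_symm h1) hA1) (by linarith)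

end Pool.Agent.Zk71.AX
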