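import Pool.Agent.Zk71.AX.Rate

/-! # Marginals of states of low energy density -/

set_option autoImplicit false
set_option linter.unusedSectionVars false

open scoped BigOperators ComplexConjugate Topology

noncomputable section

namespace Pool.Agent.Zk71.AX

open Pool.Agent.Y738.PE

/-- The energy per site exceeds the ground energy per site by at most `η`. -/
def Near {d q : ℕ} (h : BConf d q → BConf d q → ℂ) (L : ℕ) [NeZero L] (η : ℝ)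
    (Ψ : Conf d L → ℂ) : Prop :=
  nrm Ψ ≠ 0 ∧ ∀ φ : Conf d L → ℂ, nrm φ = 1 → en h L Ψ ≤ (en h L φ + η * (L : ℝ) ^ 2) * nrm Ψ

/-- one direction, one side -/
theorem margN1 {d q : ℕ} (hd : 2 ≤ d) (F : (BConf d q → BConf d q → ℝ) → ℝ) (C₀ : ℝ)
    (hC₀ : 0 ≤ C₀) (hF : ∀ L : ℕ, q ≤ L → ∀ X, |gd L X - F X| ≤ C₀ * (1 + ‖X‖) / L)
    (X e : BConf d q → BConf d q → ℝ) (he : ‖e‖ ≤ 1) (K : ℝ)
    (hX : ∀ t : ℝ, 0 ≤ t → t ≤ 1 → 2 * F X - F (X + t • e) - F (X - t • e) ≤ K * t ^ 2)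
    (η : ℝ) (hη : 0 < η) (hη1 : η ≤ 1) (L L' : ℕ) [NeZero L] [NeZero L'] (hqL : q ≤ L)
    (hqL' : q ≤ L') (hL : 1 / η ≤ L) (hL' : 1 / η ≤ L') (u : ℝ)
    (Ψ : Conf d L → ℂ) (Ψ' : Conf d L' → ℂ) (hn : nrm Ψ = 1) (hn' : nrm Ψ' = 1)
    (hT : ∀ (v : Site L) (B : BConf d q → BConf d q → ℂ), expec Ψ v B = expec Ψ 0 B)
    (hT' : ∀ (v : Site L') (B : BConf d q → BConf d q → ℂ), expec Ψ' v B = expec Ψ' 0 B)
    (hΨ : en (hermOf X) L Ψ ≤ (F X + u * η) * (L : ℝ) ^ 2)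
    (hΨ' : en (hermOf X) L' Ψ' ≤ (F X + u * η) * (L' : ℝ) ^ 2) :
    (expec Ψ' 0 (hermOf e)).re - (expec Ψ 0 (hermOf e)).re ≤
      (K + 2 * u + 2 * (C₀ * (2 + ‖X‖))) * Real.sqrt η := by
  have hA := Pool.Agent.Y331.PE.t_EnergyA
  have hB := Pool.Agent.Y675.PE.energyB
  have hE := Pool.Agent.Y932.PE.groundExists
  set a : ℝ := Real.sqrt η with ha
  have ha0 : 0 < a := Real.sqrt_pos.2 hη
  have haa : a ^ 2 = η := Real.sq_sqrt hη.le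
  have ha1 : a ≤ 1 := by
    rw [ha, Real.sqrt_le_one]
    exact hη1
  obtain ⟨ρ, hρ⟩ := exists_rho (q := q) hB Ψ
  obtain ⟨ρ', hρ'⟩ := exists_rho (q := q) hB Ψ'
  have h1 := gd_le hB hA hE (by omega) hqL X (X + a • e) Ψ hn hT _ hΨ
  have h2 := gd_le hB hA hE (by omega) hqL' X (X - a • e) Ψ' hn' hT' _ hΨ'
  rw [← hρ, add_sub_cancel_left, map_smul, smul_eq_mul, hρ] at h1
  have e2 : X - a • e - X = (-a) • e := by module
  rw [← hρ', e2, map_smul, smul_eq_mul, hρ'] at h2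
  have hae : ‖a • e‖ ≤ 1 := by
    rw [norm_smul, Real.norm_of_nonneg ha0.le]
    calc a * ‖e‖ ≤ 1 * 1 := mul_le_mul ha1 he (norm_nonneg _) zero_le_one
      _ = 1 := one_mul 1
  set δ : ℝ := C₀ * (2 + ‖X‖) * η with hδ
  have hbd : ∀ N : ℕ, q ≤ N → 1 / η ≤ (N : ℝ) → ∀ Z : BConf d q → BConf d q → ℝ,
      ‖Z‖ ≤ 1 + ‖X‖ → |gd N Z - F Z| ≤ δ := by
    intro N hqN hN Z hZ
    refine (hF N hqN Z).trans ?_
    have hN0 : (0 : ℝ) < N := lt_of_lt_of_le (by positivity) hN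
    have k0 : 1 ≤ η * N := by
      rw [div_le_iff₀ hη] at hN
      linarith
    have k1 : C₀ * (1 + ‖Z‖) ≤ C₀ * (2 + ‖X‖) := mul_le_mul_of_nonneg_left (by linarith) hC₀
    have k2 : 0 ≤ C₀ * (2 + ‖X‖) := by have := norm_nonneg X; positivity
    rw [div_le_iff₀ hN0, hδ, mul_assoc]
    calc C₀ * (1 + ‖Z‖) ≤ C₀ * (2 + ‖X‖) * 1 := by linarith
      _ ≤ C₀ * (2 + ‖X‖) * (η * N) := mul_le_mul_of_nonneg_left k0 k2
  have b2 := hbd L hqL hL (X + a • e) ((norm_add_le _ _).trans (by linarith))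
  have b4 := hbd L' hqL' hL' (X - a • e) ((norm_sub_le _ _).trans (by linarith))
  have h3 := hX a ha0.le ha1
  rw [abs_le] at b2 b4
  have h4 : a * ((expec Ψ' 0 (hermOf e)).re - (expec Ψ 0 (hermOf e)).re) ≤
      K * a ^ 2 + 2 * (u * η) + 2 * δ := by linarith
  rw [hδ, ← haa] at h4
  have h6 : a * ((expec Ψ' 0 (hermOf e)).re - (expec Ψ 0 (hermOf e)).re) ≤
      a * ((K + 2 * u + 2 * (C₀ * (2 + ‖X‖))) * a) := by
    refine h4.trans (le_of_eq ?_)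
    ring
  exact le_of_mul_le_mul_left h6 ha0

/-- all directions, expectations -/
theorem margN {d q : ℕ} (hd : 2 ≤ d) (F : (BConf d q → BConf d q → ℝ) → ℝ) (C₀ : ℝ)
    (hC₀ : 0 ≤ C₀) (hF : ∀ L : ℕ, q ≤ L → ∀ X, |gd L X - F X| ≤ C₀ * (1 + ‖X‖) / L)
    (X : BConf d q → BConf d q → ℝ) (K : ℝ)
    (hX : ∀ (σ τ : BConf d q) (t : ℝ), 0 ≤ t → t ≤ 1 →
      2 * F X - F (X + t • sg σ τ) - F (X - t • sg σ τ) ≤ K * t ^ 2) (u : ℝ) :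
    ∃ C : ℝ, 0 < C ∧ ∀ η : ℝ, 0 < η → η ≤ 1 → ∀ (L L' : ℕ) [NeZero L] [NeZero L'],
    q ≤ L → q ≤ L' → 1 / η ≤ (L : ℝ) → 1 / η ≤ (L' : ℝ) →
    ∀ (Ψ : Conf d L → ℂ) (Ψ' : Conf d L' → ℂ), nrm Ψ = 1 → nrm Ψ' = 1 →
    (∀ (v : Site L) (B : BConf d q → BConf d q → ℂ), expec Ψ v B = expec Ψ 0 B) →
    (∀ (v : Site L') (B : BConf d q → BConf d q → ℂ), expec Ψ' v B = expec Ψ' 0 B) →
    en (hermOf X) L Ψ ≤ (F X + u * η) * (L : ℝ) ^ 2 →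
    en (hermOf X) L' Ψ' ≤ (F X + u * η) * (L' : ℝ) ^ 2 →
    ∀ B : BConf d q → BConf d q → ℂ, Contr B →
      ‖expec Ψ 0 B - expec Ψ' 0 B‖ ≤ C * Real.sqrt η := by
  have hB := Pool.Agent.Y675.PE.energyB
  have hC := Pool.Agent.Y236.PE.energyC
  set N : ℝ := (Fintype.card (BConf d q) : ℝ) with hN
  set b : ℝ := K + 2 * u + 2 * (C₀ * (2 + ‖X‖)) with hb
  refine ⟨2 * (N ^ 2 * |b|) + 1, by positivity, ?_⟩
  intro η hη hη1 L L' _ _ hqL hqL' hL hL' Ψ Ψ' hn hn' hT hT' hΨ hΨ'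
  have hs : 0 < Real.sqrt η := Real.sqrt_pos.2 hη
  have key1 : ∀ σ τ : BConf d q,
      |(expec Ψ 0 (hermOf (sg σ τ))).re - (expec Ψ' 0 (hermOf (sg σ τ))).re| ≤
        |b| * Real.sqrt η := by
    intro σ τ
    have h1 := margN1 hd F C₀ hC₀ hF X (sg σ τ) (sg_norm σ τ) K (hX σ τ) η hη hη1 L L' hqL hqL'
      hL hL' u Ψ Ψ' hn hn' hT hT' hΨ hΨ'
    have h2 := margN1 hd F C₀ hC₀ hF X (sg σ τ) (sg_norm σ τ) K (hX σ τ) η hη hη1 L' L hqL' hqL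
      hL' hL u Ψ' Ψ hn' hn hT' hT hΨ' hΨ
    rw [← hb] at h1 h2
    have h3 : b * Real.sqrt η ≤ |b| * Real.sqrt η :=
      mul_le_mul_of_nonneg_right (le_abs_self b) hs.le
    rw [abs_le]
    constructor <;> linarith
  obtain ⟨ρ, hρ⟩ := exists_rho (q := q) hB Ψ
  obtain ⟨ρ', hρ'⟩ := exists_rho (q := q) hB Ψ'
  have key2 : ∀ Y : BConf d q → BConf d q → ℝ, ‖Y‖ ≤ 1 →
      |(expec Ψ 0 (hermOf Y)).re - (expec Ψ' 0 (hermOf Y)).re| ≤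
        N ^ 2 * (|b| * Real.sqrt η) := by
    intro Y hY
    rw [← hρ, ← hρ']
    have e1 : ρ Y - ρ' Y = ∑ σ, ∑ τ, Y σ τ * (ρ (sg σ τ) - ρ' (sg σ τ)) := by
      conv_lhs => rw [sg_sum Y]
      simp only [map_sum, map_smul, smul_eq_mul, mul_sub, Finset.sum_sub_distrib]
    rw [e1]
    have hYe : ∀ σ τ, |Y σ τ| ≤ 1 := by
      intro σ τ
      exact ((norm_le_pi_norm (Y σ) τ).trans (norm_le_pi_norm Y σ)).trans hY
    calc |∑ σ, ∑ τ, Y σ τ * (ρ (sg σ τ) - ρ' (sg σ τ))|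
        ≤ ∑ σ, |∑ τ, Y σ τ * (ρ (sg σ τ) - ρ' (sg σ τ))| := Finset.abs_sum_le_sum_abs _ _
      _ ≤ ∑ σ, ∑ τ, |Y σ τ * (ρ (sg σ τ) - ρ' (sg σ τ))| :=
          Finset.sum_le_sum fun σ _ => Finset.abs_sum_le_sum_abs _ _
      _ ≤ ∑ _σ : BConf d q, ∑ _τ : BConf d q, |b| * Real.sqrt η := by
          refine Finset.sum_le_sum fun σ _ => Finset.sum_le_sum fun τ _ => ?_
          rw [abs_mul, hρ, hρ']
          calc |Y σ τ| * |(expec Ψ 0 (hermOf (sg σ τ))).re - (expec Ψ' 0 (hermOf (sg σ τ))).re|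
              ≤ 1 * (|b| * Real.sqrt η) :=
                mul_le_mul (hYe σ τ) (key1 σ τ) (abs_nonneg _) zero_le_one
            _ = _ := one_mul _
      _ = N ^ 2 * (|b| * Real.sqrt η) := by
          simp only [Finset.sum_const, Finset.card_univ, nsmul_eq_mul]
          rw [hN]
          ring
  have key3 : ∀ Y : BConf d q → BConf d q → ℝ, ‖Y‖ ≤ 1 →
      ‖expec Ψ 0 (hermOf Y) - expec Ψ' 0 (hermOf Y)‖ ≤ N ^ 2 * (|b| * Real.sqrt η) := by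
    intro Y hY
    have e1 : expec Ψ 0 (hermOf Y) = (((expec Ψ 0 (hermOf Y)).re : ℝ) : ℂ) := by
      refine Complex.ext (by rw [Complex.ofReal_re]) ?_
      rw [hB.2.2 d q L hqL Y Ψ 0, Complex.ofReal_im]
    have e2 : expec Ψ' 0 (hermOf Y) = (((expec Ψ' 0 (hermOf Y)).re : ℝ) : ℂ) := by
      refine Complex.ext (by rw [Complex.ofReal_re]) ?_
      rw [hB.2.2 d q L' hqL' Y Ψ' 0, Complex.ofReal_im]
    rw [e1, e2, ← Complex.ofReal_sub, Complex.norm_real, Real.norm_eq_abs]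
    exact key2 Y hY
  intro B hBc
  obtain ⟨Y, Z, hY, hZ, hYZ⟩ := hC.2 d q B hBc
  rw [expec_decomp Ψ 0 B _ _ hYZ, expec_decomp Ψ' 0 B _ _ hYZ]
  have a1 := key3 Y hY
  have a2 := key3 Z hZ
  have e : expec Ψ 0 (hermOf Y) + Complex.I * expec Ψ 0 (hermOf Z) -
      (expec Ψ' 0 (hermOf Y) + Complex.I * expec Ψ' 0 (hermOf Z)) =
      (expec Ψ 0 (hermOf Y) - expec Ψ' 0 (hermOf Y)) +
      Complex.I * (expec Ψ 0 (hermOf Z) - expec Ψ' 0 (hermOf Z)) := by ring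
  rw [e]
  refine (norm_add_le _ _).trans ?_
  rw [norm_mul, Complex.norm_I, one_mul]
  have e3 : (2 * (N ^ 2 * |b|) + 1) * Real.sqrt η =
      N ^ 2 * (|b| * Real.sqrt η) + N ^ 2 * (|b| * Real.sqrt η) + Real.sqrt η := by
    ring
  linarith

/-- The normalised vector. -/
def nz {S : Type} [Fintype S] (Ψ : S → ℂ) : S → ℂ :=
  fun s => (((Real.sqrt (nrm Ψ))⁻¹ : ℝ) : ℂ) * Ψ s

theorem nz_c {S : Type} [Fintype S] (Ψ : S → ℂ) (h0 : nrm Ψ ≠ 0) :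
    ‖(((Real.sqrt (nrm Ψ))⁻¹ : ℝ) : ℂ)‖ ^ 2 = (nrm Ψ)⁻¹ := by
  rw [Complex.norm_real, Real.norm_eq_abs, sq_abs, inv_pow, Real.sq_sqrt (nrm_nonneg _)]

theorem nz_nrm {S : Type} [Fintype S] (Ψ : S → ℂ) (h0 : nrm Ψ ≠ 0) : nrm (nz Ψ) = 1 := by
  unfold nz
  rw [nrm_smul, nz_c Ψ h0, inv_mul_cancel₀ h0]

theorem nz_expec {d L q : ℕ} [NeZero L] (Ψ : Conf d L → ℂ) (h0 : nrm Ψ ≠ 0) (v : Site L)
    (B : BConf d q → BConf d q → ℂ) : expec (nz Ψ) v B = expec Ψ v B / (nrm Ψ : ℂ) := by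
  set c : ℂ := (((Real.sqrt (nrm Ψ))⁻¹ : ℝ) : ℂ) with hc
  have h1 : expec (nz Ψ) v B = ((‖c‖ ^ 2 : ℝ) : ℂ) * expec Ψ v B := by
    have hcc : conj c * c = ((‖c‖ ^ 2 : ℝ) : ℂ) := by
      rw [mul_comm, Complex.mul_conj, Complex.normSq_eq_norm_sq]
    unfold expec nz
    rw [Finset.mul_sum]
    refine Finset.sum_congr rfl fun s _ => ?_
    rw [Finset.mul_sum]
    refine Finset.sum_congr rfl fun τ _ => ?_
    rw [map_mul, ← hcc]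
    ring
  rw [h1, hc, nz_c Ψ h0]
  push_cast
  rw [div_eq_inv_mul]

theorem nz_en {d L q : ℕ} [NeZero L] (h : BConf d q → BConf d q → ℂ) (Ψ : Conf d L → ℂ)
    (h0 : nrm Ψ ≠ 0) : en h L (nz Ψ) = (nrm Ψ)⁻¹ * en h L Ψ := by
  unfold nz
  rw [en_smul, nz_c Ψ h0]

theorem nz_TI {d L : ℕ} (Ψ : Conf d L → ℂ) [NeZero L] (hT : TransInv Ψ) : TransInv (nz Ψ) := by
  intro a
  obtain ⟨c, hc⟩ := hT a
  refine ⟨c, fun s => ?_⟩
  unfold nz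
  rw [hc]
  ring

end Pool.Agent.Zk71.AX
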