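import Pool.Agent.Zk71.AX.Cut
import Pool.Agent.Y738.PE.AE3

/-! # Uniform rate of convergence of the ground energy density -/

set_option autoImplicit false
set_option linter.unusedSectionVars false

open scoped BigOperators ComplexConjugate Topology

noncomputable section

namespace Pool.Agent.Zk71.AX

open Pool.Agent.Y738.PE Pool.Agent.N658.TP Pool.Agent.N711.TP.EnMul
open Pool.Agent.N134.TP.Ref (tileE put_tile tile_lt bpos kpos sum_prod)

theorem enMulX {d q m j : ℕ} [NeZero m] [NeZero (m * j)] (hq : 0 < q)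
    (h : BConf d q → BConf d q → ℂ) (hqm : q ≤ m) (φ : Conf d m → ℂ) (hφ : nrm φ = 1) :
    ∃ ψ : Conf d (m * j) → ℂ, nrm ψ = 1 ∧
      en h (m * j) ψ ≤ (j : ℝ) ^ 2 * (en h m φ + (4 * q * entrySum h + 1) * m) := by
  classical
  have hE0 : 0 ≤ entrySum h := Finset.sum_nonneg fun _ _ => Finset.sum_nonneg fun _ _ =>
    norm_nonneg _
  refine ⟨psi φ, psi_nrm φ hφ, ?_⟩
  have hk : 0 < j := kpos m j
  have hmj : m ≤ m * j := Nat.le_mul_of_pos_right m hk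
  have hψ := psi_nrm (j := j) φ hφ
  unfold en
  rw [Pool.Agent.Y331.PE.sum_eq, Pool.Agent.Y331.PE.sum_eq, Complex.re_sum, Complex.re_sum]
  rw [← SE.sum_comp (fun v => (expec (psi φ) v h).re), Fintype.sum_prod_type]
  have h1 : ∀ (t : Fin j × Fin j) (p : Fin m × Fin m), (expec (psi φ) (SE (t, p)) h).re ≤
      (expec φ (((p.1 : ℕ) : ZMod m), ((p.2 : ℕ) : ZMod m)) h).re + 2 * entrySum h *
        (if (p.1 : ℕ) + q ≤ m ∧ (p.2 : ℕ) + q ≤ m then (0 : ℝ) else 1) := by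
    intro t p
    by_cases hp : (p.1 : ℕ) + q ≤ m ∧ (p.2 : ℕ) + q ≤ m
    · rw [if_pos hp, mul_zero, add_zero, SE_apply,
        psi_exp hq φ hφ t ((p.1 : ℕ), (p.2 : ℕ)) hp h]
    · rw [if_neg hp, mul_one]
      have k1 := Pool.Agent.Y331.PE.crude (hqm.trans hmj) h (psi φ) (SE (t, p))
      have k2 := Pool.Agent.Y331.PE.crude hqm h φ (((p.1 : ℕ) : ZMod m), ((p.2 : ℕ) : ZMod m))
      rw [hψ, mul_one] at k1
      rw [hφ, mul_one] at k2
      have k3 := (abs_le.1 ((Complex.abs_re_le_norm _).trans k1)).2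
      have k4 := (abs_le.1 ((Complex.abs_re_le_norm _).trans k2)).1
      linarith
  have h2 : ∑ p : Fin m × Fin m, (expec φ (((p.1 : ℕ) : ZMod m), ((p.2 : ℕ) : ZMod m)) h).re =
      ∑ v : Site m, (expec φ v h).re :=
    ((Pool.Agent.Y155.PE.eF m).prodCongr (Pool.Agent.Y155.PE.eF m)).sum_comp
      (fun v : Site m => (expec φ v h).re)
  calc ∑ t : Fin j × Fin j, ∑ p : Fin m × Fin m, (expec (psi φ) (SE (t, p)) h).re
      ≤ ∑ _t : Fin j × Fin j, ∑ p : Fin m × Fin m,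
        ((expec φ (((p.1 : ℕ) : ZMod m), ((p.2 : ℕ) : ZMod m)) h).re + 2 * entrySum h *
        (if (p.1 : ℕ) + q ≤ m ∧ (p.2 : ℕ) + q ≤ m then (0 : ℝ) else 1)) :=
        Finset.sum_le_sum fun t _ => Finset.sum_le_sum fun p _ => h1 t p
    _ = (j : ℝ) ^ 2 * (∑ v : Site m, (expec φ v h).re + 2 * entrySum h *
        ∑ p : Fin m × Fin m, (if (p.1 : ℕ) + q ≤ m ∧ (p.2 : ℕ) + q ≤ m then (0 : ℝ) else 1)) := by
        rw [Finset.sum_const, Finset.card_univ, Fintype.card_prod, Fintype.card_fin, nsmul_eq_mul,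
          Finset.sum_add_distrib, ← Finset.mul_sum, h2]
        push_cast
        ring
    _ ≤ (j : ℝ) ^ 2 * (∑ v : Site m, (expec φ v h).re + (4 * q * entrySum h + 1) * m) := by
        have k5 := card_bad m q
        have k6 : 2 * entrySum h * ∑ p : Fin m × Fin m,
            (if (p.1 : ℕ) + q ≤ m ∧ (p.2 : ℕ) + q ≤ m then (0 : ℝ) else 1) ≤
            2 * entrySum h * (2 * q * m) := mul_le_mul_of_nonneg_left k5 (by positivity)
        have k7 : (0 : ℝ) ≤ m := Nat.cast_nonneg m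
        refine mul_le_mul_of_nonneg_left ?_ (by positivity)
        nlinarith


theorem gd_cut {d q m L : ℕ} (hd : 0 < d) (hq : 0 < q) (hqm : q ≤ m) (hmL : m ≤ L)
    (X : BConf d q → BConf d q → ℝ) :
    gd m X ≤ gd L X + 4 * q * entrySum (hermOf X) / m := by
  have hm0 : m ≠ 0 := by omega
  have hL0 : L ≠ 0 := by omega
  haveI : NeZero m := ⟨hm0⟩
  haveI : NeZero L := ⟨hL0⟩
  obtain ⟨Ψ, hΨ, hTI⟩ := Pool.Agent.Y932.PE.groundExists d q L hd (hqm.trans hmL) X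
  obtain ⟨Φ, hΦ, -⟩ := Pool.Agent.Y932.PE.groundExists d q m hd hqm X
  have hTIe := transInv_expec Ψ hΨ.1 hTI
  obtain ⟨φ, hφ, hle⟩ := cutE hd hq hqm hmL (hermOf X) Ψ hΨ.1 (fun v => hTIe q v _)
  have h1 := hΦ.2 φ hφ
  rw [gd_eq X Φ hΦ, gd_eq X Ψ hΨ, Pool.Agent.Y331.PE.t_EnergyA.1 d q L _ Ψ (fun v => hTIe q v _)]
  have hL : (0 : ℝ) < (L : ℝ) ^ 2 := by positivity
  have hm : (0 : ℝ) < (m : ℝ) ^ 2 := by positivity
  rw [mul_div_cancel_left₀ _ hL.ne', div_le_iff₀ hm]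
  refine (h1.trans hle).trans (le_of_eq ?_)
  have : (m : ℝ) ≠ 0 := by exact_mod_cast hm0
  field_simp

theorem gd_mul {d q m j : ℕ} (hd : 0 < d) (hq : 0 < q) (hqm : q ≤ m) (hj : 0 < j)
    (X : BConf d q → BConf d q → ℝ) :
    gd (m * j) X ≤ gd m X + (4 * q * entrySum (hermOf X) + 1) / m := by
  have hm0 : m ≠ 0 := by omega
  have hj0 : j ≠ 0 := by omega
  have hL0 : m * j ≠ 0 := Nat.mul_ne_zero hm0 hj0
  haveI : NeZero m := ⟨hm0⟩
  haveI : NeZero (m * j) := ⟨hL0⟩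
  obtain ⟨Ψ, hΨ, -⟩ := Pool.Agent.Y932.PE.groundExists d q (m * j) hd
    (hqm.trans (Nat.le_mul_of_pos_right m hj)) X
  obtain ⟨Φ, hΦ, -⟩ := Pool.Agent.Y932.PE.groundExists d q m hd hqm X
  obtain ⟨ψ, hψ, hle⟩ := enMulX (j := j) hq (hermOf X) hqm Φ hΦ.1
  have h1 := hΨ.2 ψ hψ
  rw [gd_eq X Φ hΦ, gd_eq X Ψ hΨ]
  have hm : (0 : ℝ) < (m : ℝ) ^ 2 := by positivity
  have hmr : (m : ℝ) ≠ 0 := by exact_mod_cast hm0
  have hjr : (j : ℝ) ≠ 0 := by exact_mod_cast hj0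
  have hmj : (0 : ℝ) < ((m * j : ℕ) : ℝ) ^ 2 := by positivity
  rw [div_le_iff₀ hmj]
  refine (h1.trans hle).trans (le_of_eq ?_)
  push_cast
  field_simp

theorem gd_concave {d q L : ℕ} (hd : 0 < d) (hL0 : L ≠ 0) (hqL : q ≤ L)
    (Y Z : BConf d q → BConf d q → ℝ) (a b : ℝ) (ha : 0 ≤ a) (hb : 0 ≤ b) (hab : a + b = 1) :
    a • gd L Y + b • gd L Z ≤ gd L (a • Y + b • Z) := by
  haveI : NeZero L := ⟨hL0⟩
  obtain ⟨Ψ, hΨ, hTI⟩ := Pool.Agent.Y932.PE.groundExists d q L hd hqL (a • Y + b • Z)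
  obtain ⟨ρ, hρ⟩ := exists_rho (q := q) Pool.Agent.Y675.PE.energyB Ψ
  have h1 := gd_super Pool.Agent.Y331.PE.t_EnergyA Pool.Agent.Y675.PE.energyB
    Pool.Agent.Y932.PE.groundExists hd hqL _ Y Ψ hΨ hTI
  have h2 := gd_super Pool.Agent.Y331.PE.t_EnergyA Pool.Agent.Y675.PE.energyB
    Pool.Agent.Y932.PE.groundExists hd hqL _ Z Ψ hΨ hTI
  rw [← hρ] at h1 h2
  have h3 : a * ρ (Y - (a • Y + b • Z)) + b * ρ (Z - (a • Y + b • Z)) = 0 := by
    rw [← smul_eq_mul, ← smul_eq_mul, ← map_smul, ← map_smul, ← map_add]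
    have : a • (Y - (a • Y + b • Z)) + b • (Z - (a • Y + b • Z)) = 0 := by
      have hb' : b = 1 - a := by linarith
      subst hb'
      module
    rw [this, map_zero]
  simp only [smul_eq_mul]
  have k1 := mul_le_mul_of_nonneg_left h1 ha
  have k2 := mul_le_mul_of_nonneg_left h2 hb
  have k3 : a * gd L (a • Y + b • Z) + b * gd L (a • Y + b • Z) = gd L (a • Y + b • Z) := by
    rw [← add_mul, hab, one_mul]
  nlinarith

/-- The limit of the ground energy densities: Lipschitz, concave, uniform rate `1 / L`. -/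
theorem rate (d q : ℕ) (hd : 2 ≤ d) (hq : 0 < q) :
    ∃ (F : (BConf d q → BConf d q → ℝ) → ℝ) (C : NNReal) (C₀ : ℝ), LipschitzWith C F ∧
      ConcaveOn ℝ Set.univ F ∧ 0 ≤ C₀ ∧
      ∀ L : ℕ, q ≤ L → ∀ X, |gd L X - F X| ≤ C₀ * (1 + ‖X‖) / L := by
  have hA := Pool.Agent.Y331.PE.t_EnergyA
  have hB := Pool.Agent.Y675.PE.energyB
  have hC := Pool.Agent.Y236.PE.energyC
  have hE := Pool.Agent.Y932.PE.groundExists
  have hPTI := Pool.Agent.Y328.PE.pepsMain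
  have hbox : ∀ {d : ℕ}, 2 ≤ d → ∀ {r : ℕ}, 0 < r → ∀ {ε : ℝ}, 0 < ε → ε ≤ 1 →
    ∃ (L₀ K : ℕ) (A : Fin K → Tensor d (bond d r ε)),
      ∀ (L : ℕ) [NeZero L], L₀ ≤ L → ∀ Ψ : Conf d L → ℂ, nrm Ψ = 1 →
      (∀ (v : Site L) (B : BConf d r → BConf d r → ℂ), expec Ψ v B = expec Ψ 0 B) →
      ∃ k, ∀ (L' : ℕ) [NeZero L'], L₀ ≤ L' → 0 < nrm (pepsX (A k) L') ∧
        ∀ (u : Site L) (v : Site L') (B : BConf d r → BConf d r → ℂ), Contr B →
          ‖expec (pepsX (A k) L') v B / (nrm (pepsX (A k) L') : ℂ) - expec Ψ u B‖ ≤ ε :=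
    fun {_} hd {_} hr {_} hε hε1 => universal_box Pool.Agent.Y978.PE.collapse
      Pool.Agent.Y562.PE.orth Pool.Agent.Y297.PE.factor Pool.Agent.Y65.PE.weights
      Pool.Agent.Y328.PE.shiftMain Pool.Agent.Y794.PE.exist Pool.Agent.Y794.PE.nonzero
      Pool.Agent.Y65.PE.bound Pool.Agent.Y65.PE.purify Pool.Agent.Y585.PE.net
      Pool.Agent.Y328.PE.pepsMain hd hr hε hε1
  set C : NNReal := ⟨4 * (Fintype.card (BConf d q) : ℝ) ^ 2, by positivity⟩ with hCdef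
  have hcau : ∀ (X : BConf d q → BConf d q → ℝ) (δ : ℝ), 0 < δ → ∃ L₀ : ℕ, ∀ L L' : ℕ, L₀ ≤ L →
      L₀ ≤ L' → gd L' X ≤ gd L X + δ := fun X =>
    gd_cauchy hA hE hPTI hbox contr_inv hd hq X
  have hlip : ∀ (L : ℕ), L ≠ 0 → q ≤ L → ∀ X Z : BConf d q → BConf d q → ℝ,
      gd L Z ≤ gd L X + C * ‖Z - X‖ := by
    intro L hL0 hqL X Z
    have hi : NeZero L := ⟨hL0⟩
    exact gd_lip hA hB hC hE (by omega) hqL X Z
  obtain ⟨F, hF, hFL⟩ := gd_limit C hcau hlip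
  refine ⟨F, C, 16 * q * (Fintype.card (BConf d q) : ℝ) ^ 2 + 1, hFL, ⟨convex_univ, ?_⟩,
    by positivity, ?_⟩
  · intro Y _ Z _ a b ha hb hab
    refine le_of_tendsto_of_tendsto (((hF Y).const_smul a).add ((hF Z).const_smul b)) (hF _) ?_
    filter_upwards [Filter.eventually_ge_atTop (max q 1)] with L hL
    exact gd_concave (by omega) (by omega) (by omega) Y Z a b ha hb hab
  · intro m hqm X
    have hm0 : m ≠ 0 := by omega
    have hmr : (0 : ℝ) < m := by positivity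
    have h1 : gd m X ≤ F X + 4 * q * entrySum (hermOf X) / m := by
      refine ge_of_tendsto ((hF X).add_const (4 * q * entrySum (hermOf X) / m)) ?_
      filter_upwards [Filter.eventually_ge_atTop m] with L hL
      exact gd_cut (by omega) hq hqm hL X
    have h2 : F X ≤ gd m X + (4 * q * entrySum (hermOf X) + 1) / m := by
      have h3 : Filter.Tendsto (fun j : ℕ => m * j) Filter.atTop Filter.atTop :=
        Filter.tendsto_atTop_mono (fun j => Nat.le_mul_of_pos_left j (by omega)) Filter.tendsto_id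
      refine le_of_tendsto ((hF X).comp h3) ?_
      filter_upwards [Filter.eventually_ge_atTop 1] with j hj
      exact gd_mul (by omega) hq hqm (by omega) X
    have h4 := hC.1 d q X
    have h5 : (4 * q * entrySum (hermOf X) + 1) / m ≤
        (16 * q * (Fintype.card (BConf d q) : ℝ) ^ 2 + 1) * (1 + ‖X‖) / m := by
      refine div_le_div_of_nonneg_right ?_ hmr.le
      have k1 : (4 * q * entrySum (hermOf X) : ℝ) ≤
          4 * q * (4 * (Fintype.card (BConf d q) : ℝ) ^ 2 * ‖X‖) :=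
        mul_le_mul_of_nonneg_left h4 (by positivity)
      have k2 := norm_nonneg X
      have k3 : (0 : ℝ) ≤ 16 * q * (Fintype.card (BConf d q) : ℝ) ^ 2 := by positivity
      nlinarith
    have h6 : 4 * q * entrySum (hermOf X) / m ≤ (4 * q * entrySum (hermOf X) + 1) / m :=
      div_le_div_of_nonneg_right (by linarith) hmr.le
    rw [abs_le]
    constructor <;> linarith

/-- The coordinate directions. -/
def sg {d q : ℕ} (σ τ : BConf d q) : BConf d q → BConf d q → ℝ :=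
  fun σ' τ' => if σ' = σ ∧ τ' = τ then 1 else 0

theorem sg_norm {d q : ℕ} (σ τ : BConf d q) : ‖sg σ τ‖ ≤ 1 := by
  refine (pi_norm_le_iff_of_nonneg zero_le_one).2 fun σ' => ?_
  refine (pi_norm_le_iff_of_nonneg zero_le_one).2 fun τ' => ?_
  unfold sg
  split_ifs <;> simp

theorem sg_sum {d q : ℕ} (Y : BConf d q → BConf d q → ℝ) :
    Y = ∑ σ, ∑ τ, Y σ τ • sg σ τ := by
  funext σ' τ'
  simp only [Finset.sum_apply, Pi.smul_apply, smul_eq_mul, sg]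
  rw [Finset.sum_eq_single σ', Finset.sum_eq_single τ']
  · simp
  · intro τ _ hτ
    rw [if_neg (fun h => hτ h.2.symm), mul_zero]
  · intro h
    exact absurd (Finset.mem_univ _) h
  · intro σ _ hσ
    refine Finset.sum_eq_zero fun τ _ => ?_
    rw [if_neg (fun h => hσ h.1.symm), mul_zero]
  · intro h
    exact absurd (Finset.mem_univ _) h

/-- one direction, one side -/
theorem marg1 {d q : ℕ} (hd : 2 ≤ d) (hq : 0 < q) (F : (BConf d q → BConf d q → ℝ) → ℝ) (C₀ : ℝ)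
    (hC₀ : 0 ≤ C₀) (hF : ∀ L : ℕ, q ≤ L → ∀ X, |gd L X - F X| ≤ C₀ * (1 + ‖X‖) / L)
    (X e : BConf d q → BConf d q → ℝ) (he : ‖e‖ ≤ 1) (K : ℝ)
    (hX : ∀ t : ℝ, 0 ≤ t → t ≤ 1 → 2 * F X - F (X + t • e) - F (X - t • e) ≤ K * t ^ 2)
    (M : ℕ) (hM : q ≤ M) (L L' : ℕ) [NeZero L] [NeZero L'] (hL : M ≤ L) (hL' : M ≤ L')
    (Ψ : Conf d L → ℂ) (Ψ' : Conf d L' → ℂ) (hΨ : IsGround (hermOf X) L Ψ) (hT : TransInv Ψ)
    (hΨ' : IsGround (hermOf X) L' Ψ') (hT' : TransInv Ψ') :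
    (expec Ψ' 0 (hermOf e)).re - (expec Ψ 0 (hermOf e)).re ≤
      (K + 4 * (C₀ * (2 + ‖X‖))) / Real.sqrt M := by
  have hA := Pool.Agent.Y331.PE.t_EnergyA
  have hB := Pool.Agent.Y675.PE.energyB
  have hE := Pool.Agent.Y932.PE.groundExists
  have hM0 : 0 < M := by omega
  have hMr : (0 : ℝ) < M := by exact_mod_cast hM0
  have hs : 0 < Real.sqrt M := Real.sqrt_pos.2 hMr
  have hs1 : 1 ≤ Real.sqrt M := by
    rw [Real.one_le_sqrt]
    exact_mod_cast hM0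
  have hss : Real.sqrt M * Real.sqrt M = M := Real.mul_self_sqrt hMr.le
  set a : ℝ := (Real.sqrt M)⁻¹ with ha
  have ha0 : 0 < a := inv_pos.2 hs
  have ha1 : a ≤ 1 := inv_le_one_of_one_le₀ hs1
  obtain ⟨ρ, hρ⟩ := exists_rho (q := q) hB Ψ
  obtain ⟨ρ', hρ'⟩ := exists_rho (q := q) hB Ψ'
  have h1 := gd_super hA hB hE (by omega) (hM.trans hL) X (X + a • e) Ψ hΨ hT
  have h2 := gd_super hA hB hE (by omega) (hM.trans hL') X (X - a • e) Ψ' hΨ' hT'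
  rw [← hρ, add_sub_cancel_left, map_smul, smul_eq_mul, hρ] at h1
  have e2 : X - a • e - X = (-a) • e := by module
  rw [← hρ', e2, map_smul, smul_eq_mul, hρ'] at h2
  have hae : ‖a • e‖ ≤ 1 := by
    rw [norm_smul, Real.norm_of_nonneg ha0.le]
    calc a * ‖e‖ ≤ 1 * 1 := mul_le_mul ha1 he (norm_nonneg _) zero_le_one
      _ = 1 := one_mul 1
  set δ : ℝ := C₀ * (2 + ‖X‖) / M with hδ
  have hbd : ∀ N : ℕ, M ≤ N → ∀ Z : BConf d q → BConf d q → ℝ, ‖Z‖ ≤ 1 + ‖X‖ →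
      |gd N Z - F Z| ≤ δ := by
    intro N hN Z hZ
    refine (hF N (hM.trans hN) Z).trans ?_
    rw [hδ]
    have hNr : (M : ℝ) ≤ N := by exact_mod_cast hN
    have k1 : C₀ * (1 + ‖Z‖) ≤ C₀ * (2 + ‖X‖) := mul_le_mul_of_nonneg_left (by linarith) hC₀
    have k2 : 0 ≤ C₀ * (2 + ‖X‖) := by have := norm_nonneg X; positivity
    calc C₀ * (1 + ‖Z‖) / N ≤ C₀ * (2 + ‖X‖) / N :=
          div_le_div_of_nonneg_right k1 (hMr.trans_le hNr).le
      _ ≤ C₀ * (2 + ‖X‖) / M := div_le_div_of_nonneg_left k2 hMr hNr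
  have b1 := hbd L hL X (by linarith)
  have b2 := hbd L hL (X + a • e) ((norm_add_le _ _).trans (by linarith))
  have b3 := hbd L' hL' X (by linarith)
  have b4 := hbd L' hL' (X - a • e) ((norm_sub_le _ _).trans (by linarith))
  have h3 := hX a ha0.le ha1
  rw [abs_le] at b1 b2 b3 b4
  have h4 : a * ((expec Ψ' 0 (hermOf e)).re - (expec Ψ 0 (hermOf e)).re) ≤
      K * a ^ 2 + 4 * δ := by linarith
  have h5 : δ = C₀ * (2 + ‖X‖) * a ^ 2 := by
    rw [hδ, ha, inv_pow, pow_two, hss, div_eq_mul_inv]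
  rw [h5] at h4
  have h6 : a * ((expec Ψ' 0 (hermOf e)).re - (expec Ψ 0 (hermOf e)).re) ≤
      a * ((K + 4 * (C₀ * (2 + ‖X‖))) * a) := by
    refine h4.trans (le_of_eq ?_)
    ring
  have h7 := le_of_mul_le_mul_left h6 ha0
  rw [div_eq_mul_inv]
  exact h7

/-- all directions -/
theorem marg {d q : ℕ} (hd : 2 ≤ d) (hq : 0 < q) (F : (BConf d q → BConf d q → ℝ) → ℝ) (C₀ : ℝ)
    (hC₀ : 0 ≤ C₀) (hF : ∀ L : ℕ, q ≤ L → ∀ X, |gd L X - F X| ≤ C₀ * (1 + ‖X‖) / L)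
    (X : BConf d q → BConf d q → ℝ) (K : ℝ)
    (hX : ∀ (σ τ : BConf d q) (t : ℝ), 0 ≤ t → t ≤ 1 →
      2 * F X - F (X + t • sg σ τ) - F (X - t • sg σ τ) ≤ K * t ^ 2) :
    ∃ C : ℝ, 0 < C ∧ ∀ (M : ℕ), q ≤ M → ∀ (L L' : ℕ) [NeZero L] [NeZero L'], M ≤ L → M ≤ L' →
    ∀ (Ψ : Conf d L → ℂ) (Ψ' : Conf d L' → ℂ), IsGround (hermOf X) L Ψ → TransInv Ψ →
    IsGround (hermOf X) L' Ψ' → TransInv Ψ' → ∀ R, InBox q R →
      Close R Ψ Ψ' (C / Real.sqrt M) := by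
  have hB := Pool.Agent.Y675.PE.energyB
  have hC := Pool.Agent.Y236.PE.energyC
  have hRI := Pool.Agent.Y759.PE.regionIn
  set N : ℝ := (Fintype.card (BConf d q) : ℝ) with hN
  set b : ℝ := K + 4 * (C₀ * (2 + ‖X‖)) with hb
  refine ⟨2 * (N ^ 2 * |b|) + 1, by positivity, ?_⟩
  intro M hM L L' _ _ hL hL' Ψ Ψ' hΨ hT hΨ' hT' R hR
  have hM0 : 0 < M := by omega
  have hMr : (0 : ℝ) < M := by exact_mod_cast hM0
  have hs : 0 < Real.sqrt M := Real.sqrt_pos.2 hMr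
  have key1 : ∀ σ τ : BConf d q,
      |(expec Ψ 0 (hermOf (sg σ τ))).re - (expec Ψ' 0 (hermOf (sg σ τ))).re| ≤
        |b| / Real.sqrt M := by
    intro σ τ
    have h1 := marg1 hd hq F C₀ hC₀ hF X (sg σ τ) (sg_norm σ τ) K (hX σ τ) M hM L L' hL hL' Ψ Ψ'
      hΨ hT hΨ' hT'
    have h2 := marg1 hd hq F C₀ hC₀ hF X (sg σ τ) (sg_norm σ τ) K (hX σ τ) M hM L' L hL' hL Ψ' Ψ
      hΨ' hT' hΨ hT
    rw [← hb] at h1 h2
    have h3 : b / Real.sqrt M ≤ |b| / Real.sqrt M :=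
      div_le_div_of_nonneg_right (le_abs_self b) hs.le
    rw [abs_le]
    constructor <;> linarith
  obtain ⟨ρ, hρ⟩ := exists_rho (q := q) hB Ψ
  obtain ⟨ρ', hρ'⟩ := exists_rho (q := q) hB Ψ'
  have key2 : ∀ Y : BConf d q → BConf d q → ℝ, ‖Y‖ ≤ 1 →
      |(expec Ψ 0 (hermOf Y)).re - (expec Ψ' 0 (hermOf Y)).re| ≤
        N ^ 2 * (|b| / Real.sqrt M) := by
    intro Y hY
    rw [← hρ, ← hρ']
    have e1 : ρ Y - ρ' Y = ∑ σ, ∑ τ, Y σ τ * (ρ (sg σ τ) - ρ' (sg σ τ)) := by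
      conv_lhs => rw [sg_sum Y]
      simp only [map_sum, map_smul, smul_eq_mul, mul_sub, Finset.sum_sub_distrib]
    rw [e1]
    have hYe : ∀ σ τ, |Y σ τ| ≤ 1 := by
      intro σ τ
      exact ((norm_le_pi_norm (Y σ) τ).trans (norm_le_pi_norm Y σ)).trans hY
    calc |∑ σ, ∑ τ, Y σ τ * (ρ (sg σ τ) - ρ' (sg σ τ))|
        ≤ ∑ σ, |∑ τ, Y σ τ * (ρ (sg σ τ) - ρ' (sg σ τ))| := Finset.abs_sum_le_sum_abs _ _
      _ ≤ ∑ σ, ∑ τ, |Y σ τ * (ρ (sg σ τ) - ρ' (sg σ τ))| :=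
          Finset.sum_le_sum fun σ _ => Finset.abs_sum_le_sum_abs _ _
      _ ≤ ∑ _σ : BConf d q, ∑ _τ : BConf d q, |b| / Real.sqrt M := by
          refine Finset.sum_le_sum fun σ _ => Finset.sum_le_sum fun τ _ => ?_
          rw [abs_mul, hρ, hρ']
          calc |Y σ τ| * |(expec Ψ 0 (hermOf (sg σ τ))).re - (expec Ψ' 0 (hermOf (sg σ τ))).re|
              ≤ 1 * (|b| / Real.sqrt M) :=
                mul_le_mul (hYe σ τ) (key1 σ τ) (abs_nonneg _) zero_le_one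
            _ = _ := one_mul _
      _ = N ^ 2 * (|b| / Real.sqrt M) := by
          simp only [Finset.sum_const, Finset.card_univ, nsmul_eq_mul]
          rw [hN]
          ring
  have key3 : ∀ Y : BConf d q → BConf d q → ℝ, ‖Y‖ ≤ 1 →
      ‖expec Ψ 0 (hermOf Y) - expec Ψ' 0 (hermOf Y)‖ ≤ N ^ 2 * (|b| / Real.sqrt M) := by
    intro Y hY
    have e1 : expec Ψ 0 (hermOf Y) = (((expec Ψ 0 (hermOf Y)).re : ℝ) : ℂ) := by
      refine Complex.ext (by rw [Complex.ofReal_re]) ?_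
      rw [hB.2.2 d q L (hM.trans hL) Y Ψ 0, Complex.ofReal_im]
    have e2 : expec Ψ' 0 (hermOf Y) = (((expec Ψ' 0 (hermOf Y)).re : ℝ) : ℂ) := by
      refine Complex.ext (by rw [Complex.ofReal_re]) ?_
      rw [hB.2.2 d q L' (hM.trans hL') Y Ψ' 0, Complex.ofReal_im]
    rw [e1, e2, ← Complex.ofReal_sub, Complex.norm_real, Real.norm_eq_abs]
    exact key2 Y hY
  have main : ∀ B : BConf d q → BConf d q → ℂ, Contr B →
      ‖expec Ψ 0 B - expec Ψ' 0 B‖ ≤ (2 * (N ^ 2 * |b|) + 1) / Real.sqrt M := by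
    intro B hBc
    obtain ⟨Y, Z, hY, hZ, hYZ⟩ := hC.2 d q B hBc
    rw [expec_decomp Ψ 0 B _ _ hYZ, expec_decomp Ψ' 0 B _ _ hYZ]
    have a1 := key3 Y hY
    have a2 := key3 Z hZ
    have e : expec Ψ 0 (hermOf Y) + Complex.I * expec Ψ 0 (hermOf Z) -
        (expec Ψ' 0 (hermOf Y) + Complex.I * expec Ψ' 0 (hermOf Z)) =
        (expec Ψ 0 (hermOf Y) - expec Ψ' 0 (hermOf Y)) +
        Complex.I * (expec Ψ 0 (hermOf Z) - expec Ψ' 0 (hermOf Z)) := by ring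
    rw [e]
    refine (norm_add_le _ _).trans ?_
    rw [norm_mul, Complex.norm_I, one_mul]
    have e3 : (2 * (N ^ 2 * |b|) + 1) / Real.sqrt M =
        N ^ 2 * (|b| / Real.sqrt M) + N ^ 2 * (|b| / Real.sqrt M) + 1 / Real.sqrt M := by
      ring
    have e4 : 0 ≤ 1 / Real.sqrt M := by positivity
    linarith
  intro u v B hBc
  obtain ⟨B', hB', hBB⟩ := hRI d q R hR B hBc
  rw [hBB L (hM.trans hL), hBB L' (hM.trans hL'), transInv_expec Ψ hΨ.1 hT,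
    transInv_expec Ψ' hΨ'.1 hT', hΨ.1, hΨ'.1]
  simpa using main B' hB'

end Pool.Agent.Zk71.AX
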